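import Pool.Agent.Helper15.RC.Prime

/-!
# Covers by large primes inside the constructed set, summed over the primes
-/

set_option autoImplicit false

open Finset Real

namespace Pool.Agent.Helper15.RC

open Pool.Agent.Helper44

theorem blocks_union (N k : ℕ) (f : ℕ → ℝ) : ∀ n : ℕ,
    ∑ p ∈ (Finset.Ioc (N / 2 ^ (k * n)) N).filter Nat.Prime, f p =
      ∑ b ∈ Finset.range n, ∑ p ∈ Bl N k b, f p := by
  classical
  intro n
  induction n with
  | zero =>
    rw [Finset.sum_range_zero, mul_zero, pow_zero, Nat.div_one, Finset.Ioc_self]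
    simp
  | succ n ih =>
    rw [Finset.sum_range_succ, ← ih]
    have h1 : N / 2 ^ (k * (n + 1)) ≤ N / 2 ^ (k * n) :=
      Nat.div_le_div_left (Nat.pow_le_pow_right (by norm_num) (by nlinarith)) (by positivity)
    have h2 : N / 2 ^ (k * n) ≤ N := Nat.div_le_self _ _
    have h3 : (Finset.Ioc (N / 2 ^ (k * (n + 1))) N).filter Nat.Prime =
        (Finset.Ioc (N / 2 ^ (k * n)) N).filter Nat.Prime ∪ Bl N k n := by
      unfold Bl
      rw [← Finset.filter_union]
      congr 1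
      ext x
      rw [Finset.mem_union, Finset.mem_Ioc, Finset.mem_Ioc, Finset.mem_Ioc]
      omega
    rw [h3, Finset.sum_union]
    rw [Finset.disjoint_left]
    intro x hx hx'
    unfold Bl at hx'
    rw [Finset.mem_filter, Finset.mem_Ioc] at hx hx'
    omega

theorem Fb_top {A D : ℝ} (hA : 1 ≤ A) : ∀ (tl : List ℕ) (j h : ℕ), Ch A D j (h :: tl) →
    Fb (h :: tl) h ≤ 2 * lam (h :: tl)
  | [], _, _, _ => by
      show (1 : ℝ) ≤ 2 * 1
      norm_num
  | g :: rest, j, h, hc => by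
      have h1 := Ch_lam hA rest (j + 1) g hc.2.2.2.2
      have h2 := hc.2.1
      have h3 := TT_ge hA j
      have h4 := hc.2.2.2.1
      show (if g ≤ h then (1 + La g h) * lam (g :: rest) else Fb (g :: rest) h) ≤
        2 * (La g h * lam (g :: rest))
      rw [if_pos (by omega)]
      nlinarith [mul_nonneg (by linarith : 0 ≤ La g h - 1) (by linarith : 0 ≤ lam (g :: rest))]

theorem quot_ge {N p e : ℕ} (hp : 0 < p) (h : p ≤ N / 2 ^ e) : (2 : ℝ) ^ e ≤ (N : ℝ) / p := by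
  have h1 : p * 2 ^ e ≤ N := by
    calc p * 2 ^ e ≤ N / 2 ^ e * 2 ^ e := Nat.mul_le_mul_right _ h
      _ ≤ N := Nat.div_mul_le_self _ _
  have hp0 : (0 : ℝ) < p := by exact_mod_cast hp
  rw [le_div_iff₀ hp0]
  have h2 : ((p * 2 ^ e : ℕ) : ℝ) ≤ N := by exact_mod_cast h1
  push_cast at h2
  linarith

/-- the bound for one prime, simplified -/
theorem one_prime {K : ℕ} (hS : SC K) {A D C1 : ℝ} (hA : 1 ≤ A) (hC1 : 0 < C1)
    (hV : ∀ h : ℕ, 1 ≤ h → VV (Pr h) ≤ C1 / h) (a : ℕ → ℕ) (N p b : ℕ)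
    (hp : p.Prime) (hb : 1 ≤ b) (hbp : 2 ^ b < p) (hpN : p ≤ N / 2 ^ ((K + 4) * b))
    (tl : List ℕ) (j h : ℕ) (hc : Ch A D j (h :: tl)) (hbh : b ≤ h) :
    evCount (Finset.Ioc 0 N) (fun m => cov a p m ∧ cnd a (h :: tl) m) ≤
      (N * (1 / p)) * ((2 * C1 + 2) * (Fb (h :: tl) b / b)) := by
  have h1 := per_prime hS hA a N p b hp hb hbp tl j h hc hbh
  have h2 := quot_ge hp.pos hpN
  have hF := Fb_ge hA tl j h b hc
  have hb0 : (1 : ℝ) ≤ b := by exact_mod_cast hb
  have hN0 : (0 : ℝ) ≤ (N : ℝ) / p := by positivity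
  have h3 : (2 : ℝ) ^ ((3 + K) * b) ≤ (N / p) * (1 / b) := by
    have h4 : (2 : ℝ) ^ ((K + 4) * b) = 2 ^ ((3 + K) * b) * 2 ^ b := by
      rw [← pow_add]
      congr 1
      ring
    have h5 : (b : ℝ) ≤ 2 ^ b := by exact_mod_cast Nat.lt_two_pow_self.le
    rw [h4] at h2
    have h6 : (0 : ℝ) < 2 ^ ((3 + K) * b) := by positivity
    rw [mul_one_div, le_div_iff₀ (by linarith)]
    calc (2 : ℝ) ^ ((3 + K) * b) * b ≤ 2 ^ ((3 + K) * b) * 2 ^ b :=
          mul_le_mul_of_nonneg_left h5 h6.le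
      _ ≤ N / p := h2
  have h7 : 2 * ((N : ℝ) / p) * VV (Pr b) * Fb (h :: tl) b ≤
      2 * (N / p) * (C1 / b) * Fb (h :: tl) b := by
    refine mul_le_mul_of_nonneg_right ?_ (by linarith)
    exact mul_le_mul_of_nonneg_left (hV b hb) (by positivity)
  have h8 : ((N : ℝ) / p) * (1 / b) ≤ (N / p) * (Fb (h :: tl) b / b) := by
    refine mul_le_mul_of_nonneg_left ?_ hN0
    exact div_le_div_of_nonneg_right hF (by linarith)
  have h9 : ((N : ℝ) * (1 / p)) * ((2 * C1 + 2) * (Fb (h :: tl) b / b)) =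
      2 * (N / p) * (C1 / b) * Fb (h :: tl) b + 2 * ((N / p) * (Fb (h :: tl) b / b)) := by
    ring
  rw [h9]
  linarith

theorem large_sum {K : ℕ} (hS : SC K) {A D : ℝ} (hA : 1 ≤ A) :
    ∃ C : ℝ, 0 < C ∧ ∀ (N H : ℕ) (a : ℕ → ℕ) (tl : List ℕ), 1 ≤ H →
      2 ^ (2 * (K + 4) * H) ≤ N → N < 2 ^ (2 * (K + 4) * (H + 1)) → Ch A D 0 (H :: tl) →
      ∑ p ∈ (Finset.Ioc (2 ^ H) N).filter Nat.Prime,
        evCount (Finset.Ioc 0 N) (fun m => cov a p m ∧ cnd a (H :: tl) m) ≤
        C * (N / H) * (lam (H :: tl) + tot (H :: tl) H + 1) := by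
  classical
  obtain ⟨c1, C1, hc1, hC1, hV⟩ := VV_Pr_bounds
  obtain ⟨C2, hC2, hB⟩ := Bl_sum (K + 4) (by omega)
  obtain ⟨C3, hC3, hG⟩ := big_sum (K + 4) (by omega)
  refine ⟨2 * (2 * C1 + 2) * C3 + 2 * C2 + (2 * C1 + 2) * C2, by positivity,
    fun N H a tl hH hN hN' hc => ?_⟩
  have hH0 : (1 : ℝ) ≤ H := by exact_mod_cast hH
  have hN0 : 0 < N := lt_of_lt_of_le (by positivity) hN
  have hNr : (0 : ℝ) < N := by exact_mod_cast hN0
  have hlam := Ch_lam hA tl 0 H hc
  have hV' : ∀ h : ℕ, 1 ≤ h → VV (Pr h) ≤ C1 / h := fun h hh => (hV h hh).2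
  have hF0 : ∀ b : ℕ, 1 ≤ Fb (H :: tl) b := fun b => Fb_ge hA tl 0 H b hc
  have htot0 : 0 ≤ tot (H :: tl) H := by
    unfold tot
    refine Finset.sum_nonneg fun b _ => ?_
    have := hF0 b
    positivity
  have hNdiv : ∀ b : ℕ, b ≤ H → 2 ^ b ≤ N / 2 ^ ((K + 4) * b) := by
    intro b hb
    rw [Nat.le_div_iff_mul_le (by positivity), ← pow_add]
    refine le_trans (Nat.pow_le_pow_right (by norm_num) ?_) hN
    nlinarith
  -- splitting
  have hsplit : (Finset.Ioc (2 ^ H) N).filter Nat.Prime =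
      (Finset.Ioc (2 ^ H) (N / 2 ^ ((K + 4) * H))).filter Nat.Prime ∪
      (Finset.Ioc (N / 2 ^ ((K + 4) * H)) N).filter Nat.Prime := by
    rw [← Finset.filter_union]
    congr 1
    ext x
    have h1 := hNdiv H le_rfl
    have h2 : N / 2 ^ ((K + 4) * H) ≤ N := Nat.div_le_self _ _
    rw [Finset.mem_union, Finset.mem_Ioc, Finset.mem_Ioc, Finset.mem_Ioc]
    omega
  have hdisj : Disjoint ((Finset.Ioc (2 ^ H) (N / 2 ^ ((K + 4) * H))).filter Nat.Prime)
      ((Finset.Ioc (N / 2 ^ ((K + 4) * H)) N).filter Nat.Prime) := by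
    rw [Finset.disjoint_left]
    intro x hx hx'
    rw [Finset.mem_filter, Finset.mem_Ioc] at hx hx'
    omega
  rw [hsplit, Finset.sum_union hdisj, blocks_union]
  -- the medium primes
  have hA1 : ∑ p ∈ (Finset.Ioc (2 ^ H) (N / 2 ^ ((K + 4) * H))).filter Nat.Prime,
      evCount (Finset.Ioc 0 N) (fun m => cov a p m ∧ cnd a (H :: tl) m) ≤
      2 * (2 * C1 + 2) * C3 * (N / H) * lam (H :: tl) := by
    have h1 : ∀ p ∈ (Finset.Ioc (2 ^ H) (N / 2 ^ ((K + 4) * H))).filter Nat.Prime,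
        evCount (Finset.Ioc 0 N) (fun m => cov a p m ∧ cnd a (H :: tl) m) ≤
        ((1 : ℝ) / p) * (N * ((2 * C1 + 2) * (2 * lam (H :: tl) / H))) := by
      intro p hp
      rw [Finset.mem_filter, Finset.mem_Ioc] at hp
      refine (one_prime hS hA hC1 hV' a N p H hp.2 hH hp.1.1 hp.1.2 tl 0 H hc le_rfl).trans ?_
      have h2 : Fb (H :: tl) H / (H : ℝ) ≤ 2 * lam (H :: tl) / H :=
        div_le_div_of_nonneg_right (Fb_top hA tl 0 H hc) (by linarith)
      have h3 : (N : ℝ) * (1 / p) * ((2 * C1 + 2) * (Fb (H :: tl) H / H)) ≤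
          N * (1 / p) * ((2 * C1 + 2) * (2 * lam (H :: tl) / H)) := by
        gcongr
      refine h3.trans (le_of_eq ?_)
      ring
    refine (Finset.sum_le_sum h1).trans ?_
    rw [← Finset.sum_mul]
    have h4 : ∑ p ∈ (Finset.Ioc (2 ^ H) (N / 2 ^ ((K + 4) * H))).filter Nat.Prime, (1 : ℝ) / p ≤
        C3 := by
      refine le_trans (Finset.sum_le_sum_of_subset_of_nonneg ?_ ?_) (hG N H hH hN hN')
      · intro x hx
        rw [Finset.mem_filter, Finset.mem_Ioc] at hx ⊢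
        exact ⟨⟨hx.1.1, hx.1.2.trans (Nat.div_le_self _ _)⟩, hx.2⟩
      · intro x _ _
        positivity
    calc (∑ p ∈ (Finset.Ioc (2 ^ H) (N / 2 ^ ((K + 4) * H))).filter Nat.Prime, (1 : ℝ) / p) *
          (N * ((2 * C1 + 2) * (2 * lam (H :: tl) / H)))
        ≤ C3 * (N * ((2 * C1 + 2) * (2 * lam (H :: tl) / H))) :=
          mul_le_mul_of_nonneg_right h4 (by positivity)
      _ = 2 * (2 * C1 + 2) * C3 * (N / H) * lam (H :: tl) := by ring
  -- the blocks
  have hB1 : ∑ b ∈ Finset.range H, ∑ p ∈ Bl N (K + 4) b,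
      evCount (Finset.Ioc 0 N) (fun m => cov a p m ∧ cnd a (H :: tl) m) ≤
      2 * C2 * (N / H) + (2 * C1 + 2) * C2 * (N / H) * tot (H :: tl) H := by
    rw [Finset.range_eq_Ico, Finset.sum_eq_sum_Ico_succ_bot (by omega)]
    refine add_le_add ?_ ?_
    · -- block 0
      have h1 : ∀ p ∈ Bl N (K + 4) 0,
          evCount (Finset.Ioc 0 N) (fun m => cov a p m ∧ cnd a (H :: tl) m) ≤
          ((1 : ℝ) / p) * (2 * N) := by
        intro p hp
        unfold Bl at hp
        rw [Finset.mem_filter, Finset.mem_Ioc] at hp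
        have hpN : p ≤ N := hp.1.2.trans (Nat.div_le_self _ _)
        have hp0 : (0 : ℝ) < p := by exact_mod_cast hp.2.pos
        have h2 := card_cov a N {p} (by
          intro q hq
          rw [Finset.mem_singleton] at hq
          rw [hq]
          exact hp.2)
        rw [PI_single, abs_le] at h2
        have h3 : evCount (Finset.Ioc 0 N) (fun m => cov a p m ∧ cnd a (H :: tl) m) ≤
            evCount (Finset.Ioc 0 N) (fun m => ∀ q ∈ ({p} : Finset ℕ), cov a q m) := by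
          refine ev_mono _ fun m hm => ?_
          intro q hq
          rw [Finset.mem_singleton] at hq
          rw [hq]
          exact hm.1
        have h4 : (1 : ℝ) ≤ N * (1 / p) := by
          rw [mul_one_div, le_div_iff₀ hp0, one_mul]
          exact_mod_cast hpN
        have h5 : ((1 : ℝ) / p) * (2 * N) = N * (1 / p) + N * (1 / p) := by ring
        rw [h5]
        linarith [h2.2]
      refine (Finset.sum_le_sum h1).trans ?_
      rw [← Finset.sum_mul]
      calc (∑ p ∈ Bl N (K + 4) 0, (1 : ℝ) / p) * (2 * N) ≤ (C2 / H) * (2 * N) :=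
            mul_le_mul_of_nonneg_right (hB N H 0 hH hN (by omega)) (by positivity)
        _ = 2 * C2 * (N / H) := by ring
    · unfold tot
      rw [Finset.mul_sum]
      refine Finset.sum_le_sum fun b hb => ?_
      rw [Finset.mem_Ico] at hb
      have hb1 : 1 ≤ b := by omega
      have hb0 : (1 : ℝ) ≤ b := by exact_mod_cast hb1
      have h1 : ∀ p ∈ Bl N (K + 4) b,
          evCount (Finset.Ioc 0 N) (fun m => cov a p m ∧ cnd a (H :: tl) m) ≤
          ((1 : ℝ) / p) * (N * ((2 * C1 + 2) * (Fb (H :: tl) b / b))) := by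
        intro p hp
        unfold Bl at hp
        rw [Finset.mem_filter, Finset.mem_Ioc] at hp
        have h2 : 2 ^ b ≤ N / 2 ^ ((K + 4) * (b + 1)) := by
          rw [Nat.le_div_iff_mul_le (by positivity), ← pow_add]
          refine le_trans (Nat.pow_le_pow_right (by norm_num) ?_) hN
          nlinarith [hb.2]
        refine (one_prime hS hA hC1 hV' a N p b hp.2 hb1 (h2.trans_lt hp.1.1) hp.1.2 tl 0 H hc
          (by omega)).trans (le_of_eq ?_)
        ring
      refine (Finset.sum_le_sum h1).trans ?_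
      rw [← Finset.sum_mul]
      have hFb := hF0 b
      calc (∑ p ∈ Bl N (K + 4) b, (1 : ℝ) / p) * (N * ((2 * C1 + 2) * (Fb (H :: tl) b / b)))
          ≤ (C2 / H) * (N * ((2 * C1 + 2) * (Fb (H :: tl) b / b))) :=
            mul_le_mul_of_nonneg_right (hB N H b hH hN hb.2) (by positivity)
        _ = (2 * C1 + 2) * C2 * (N / H) * (Fb (H :: tl) b / b) := by ring
  -- together
  have hNH : 0 ≤ (N : ℝ) / H := by positivity
  set X : ℝ := (N : ℝ) / H with hX
  set l := lam (H :: tl) with hl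
  set t := tot (H :: tl) H with ht
  have e1 : 0 ≤ 2 * (2 * C1 + 2) * C3 * X * (t + 1) := by positivity
  have e2 : 0 ≤ 2 * C2 * X * (l + t) := by positivity
  have e3 : 0 ≤ (2 * C1 + 2) * C2 * X * (l + 1) := by positivity
  nlinarith [hA1, hB1, e1, e2, e3]

end Pool.Agent.Helper15.RC
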