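import Pool.Agent.Helper15.RC.Facts

/-!
# Chains of windows with masses growing doubly exponentially
-/

set_option autoImplicit false

open Finset Real

namespace Pool.Agent.Helper15.RC

/-- The thresholds. -/
noncomputable def TT (A : ℝ) (j : ℕ) : ℝ := A ^ (2 ^ j)

theorem TT_succ (A : ℝ) (j : ℕ) : TT A (j + 1) = TT A j * TT A j := by
  unfold TT
  rw [pow_succ, pow_mul, sq]

theorem TT_ge {A : ℝ} (hA : 1 ≤ A) (j : ℕ) : A ≤ TT A j := by
  unfold TT
  calc A = A ^ 1 := (pow_one A).symm
    _ ≤ A ^ (2 ^ j) := pow_le_pow_right₀ hA (Nat.one_le_two_pow)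

/-- The chains. -/
def Ch (A D : ℝ) : ℕ → List ℕ → Prop
  | _, [] => False
  | j, [h] => 1 ≤ h ∧ La 1 h < TT A j
  | j, h :: g :: rest => 1 ≤ h ∧ TT A j ≤ La g h ∧ La g h ≤ TT A j + D + 1 ∧ 2 * g ≤ h ∧
      Ch A D (j + 1) (g :: rest)

theorem Ch_pos {A D : ℝ} {j h : ℕ} {tl : List ℕ} (hc : Ch A D j (h :: tl)) : 1 ≤ h := by
  cases tl with
  | nil => exact hc.1
  | cons g rest => exact hc.1

theorem Ch_exists {A D : ℝ} (hD : 1 ≤ D) (hA : D + 1 ≤ A)
    (hL : ∀ g h : ℕ, 1 ≤ g → g ≤ h →
      Real.log ((h : ℝ) / g) - D ≤ La g h ∧ La g h ≤ Real.log ((h : ℝ) / g) + D) :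
    ∀ h : ℕ, 1 ≤ h → ∀ j : ℕ, ∃ tl, Ch A D j (h :: tl) := by
  classical
  intro h
  induction h using Nat.strong_induction_on with
  | _ h ih =>
    intro hh j
    have hT : A ≤ TT A j := TT_ge (by linarith) j
    by_cases h1 : La 1 h < TT A j
    · exact ⟨[], hh, h1⟩
    · push Not at h1
      -- the largest g with a large mass
      set G : Finset ℕ := (Finset.Icc 1 h).filter (fun g => TT A j ≤ La g h) with hG
      have hGne : G.Nonempty := ⟨1, by
        rw [hG, Finset.mem_filter, Finset.mem_Icc]
        exact ⟨⟨le_rfl, hh⟩, h1⟩⟩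
      set g := G.max' hGne with hg
      have hgG : g ∈ G := Finset.max'_mem _ _
      rw [hG, Finset.mem_filter, Finset.mem_Icc] at hgG
      obtain ⟨⟨hg1, hgh⟩, hgT⟩ := hgG
      have hgne : g ≠ h := by
        intro e
        rw [e, La_self] at hgT
        linarith
      have hglt : g < h := lt_of_le_of_ne hgh hgne
      have hnext : La (g + 1) h < TT A j := by
        by_contra hn
        push Not at hn
        have h2 : g + 1 ∈ G := by
          rw [hG, Finset.mem_filter, Finset.mem_Icc]
          exact ⟨⟨by omega, hglt⟩, hn⟩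
        have h3 := Finset.le_max' _ _ h2
        rw [← hg] at h3
        omega
      have hg0 : (1 : ℝ) ≤ g := by exact_mod_cast hg1
      have hlog2 : Real.log 2 ≤ 1 := by
        have := Real.log_two_lt_d9
        linarith
      have hstep : La g (g + 1) ≤ 1 + D := by
        have h2 := (hL g (g + 1) hg1 (by omega)).2
        have h3 : Real.log (((g + 1 : ℕ) : ℝ) / g) ≤ Real.log 2 := by
          refine Real.log_le_log (by positivity) ?_
          rw [div_le_iff₀ (by linarith)]
          push_cast
          linarith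
        linarith
      have hadd := La_add (f := g) (g := g + 1) (h := h) (by omega) hglt
      have h2g : 2 * g ≤ h := by
        by_contra hn
        push Not at hn
        have h2 := (hL g h hg1 hgh).2
        have h3 : Real.log ((h : ℝ) / g) ≤ Real.log 2 := by
          refine Real.log_le_log ?_ ?_
          · have : (0 : ℝ) < h := by exact_mod_cast hh
            positivity
          · rw [div_le_iff₀ (by linarith)]
            have : (h : ℝ) ≤ 2 * g := by exact_mod_cast hn.le
            exact this
        have h4 : Real.log 2 < 1 := by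
          have := Real.log_two_lt_d9
          linarith
        linarith
      obtain ⟨tl, htl⟩ := ih g hglt hg1 (j + 1)
      exact ⟨g :: tl, hh, hgT, by linarith, h2g, htl⟩

theorem Ch_sz {A D : ℝ} : ∀ (tl : List ℕ) (j h : ℕ), Ch A D j (h :: tl) →
    sz (h :: tl) ≤ 2 * h
  | [], _, h, _ => by
      show 0 ≤ 2 * h
      omega
  | g :: rest, j, h, hc => by
      have h1 := Ch_sz rest (j + 1) g hc.2.2.2.2
      have h2 := hc.2.2.2.1
      show h + sz (g :: rest) ≤ 2 * h
      omega

theorem Ch_dec {A D : ℝ} : ∀ (tl : List ℕ) (j h : ℕ), Ch A D j (h :: tl) →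
    Dec (h :: tl)
  | [], _, _, _ => trivial
  | g :: rest, j, h, hc => by
      have h1 := Ch_dec rest (j + 1) g hc.2.2.2.2
      have h2 := hc.2.2.2.1
      have h3 := hc.1
      exact ⟨by omega, h1⟩

theorem Ch_lam {A D : ℝ} (hA : 1 ≤ A) : ∀ (tl : List ℕ) (j h : ℕ), Ch A D j (h :: tl) →
    1 ≤ lam (h :: tl)
  | [], _, _, _ => le_rfl
  | g :: rest, j, h, hc => by
      have h1 := Ch_lam hA rest (j + 1) g hc.2.2.2.2
      have h2 := hc.2.1
      have h3 := TT_ge hA j
      show 1 ≤ La g h * lam (g :: rest)
      calc (1 : ℝ) = 1 * 1 := (mul_one 1).symm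
        _ ≤ La g h * lam (g :: rest) :=
          mul_le_mul (by linarith) h1 zero_le_one (by linarith)

/-- The block function. -/
noncomputable def Fb : List ℕ → ℕ → ℝ
  | [], _ => 1
  | [_], _ => 1
  | h :: g :: rest, b => if g ≤ b then (1 + La g h) * lam (g :: rest) else Fb (g :: rest) b

theorem Fb_ge {A D : ℝ} (hA : 1 ≤ A) : ∀ (tl : List ℕ) (j h b : ℕ), Ch A D j (h :: tl) →
    1 ≤ Fb (h :: tl) b
  | [], _, _, _, _ => le_rfl
  | g :: rest, j, h, b, hc => by
      show 1 ≤ if g ≤ b then (1 + La g h) * lam (g :: rest) else Fb (g :: rest) b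
      split_ifs with hb
      · have h1 := Ch_lam hA rest (j + 1) g hc.2.2.2.2
        have h2 := La_nonneg g h
        calc (1 : ℝ) = 1 * 1 := (mul_one 1).symm
          _ ≤ (1 + La g h) * lam (g :: rest) :=
            mul_le_mul (by linarith) h1 zero_le_one (by linarith)
      · exact Fb_ge hA rest (j + 1) g b hc.2.2.2.2

/-- The total contribution of the blocks. -/
noncomputable def tot (hs : List ℕ) (h : ℕ) : ℝ := ∑ b ∈ Finset.Ico 1 h, Fb hs b / b

theorem tot_split {h g : ℕ} (rest : List ℕ) (hg : 1 ≤ g) (hgh : g ≤ h) :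
    tot (h :: g :: rest) h = tot (g :: rest) g +
      (1 + La g h) * lam (g :: rest) * ∑ b ∈ Finset.Ico g h, (1 : ℝ) / b := by
  unfold tot
  rw [← Finset.sum_Ico_consecutive _ hg hgh]
  congr 1
  · refine Finset.sum_congr rfl fun b hb => ?_
    rw [Finset.mem_Ico] at hb
    have h1 : Fb (h :: g :: rest) b = Fb (g :: rest) b := by
      show (if g ≤ b then (1 + La g h) * lam (g :: rest) else Fb (g :: rest) b) = _
      rw [if_neg (by omega)]
    rw [h1]
  · rw [Finset.mul_sum]
    refine Finset.sum_congr rfl fun b hb => ?_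
    rw [Finset.mem_Ico] at hb
    have h1 : Fb (h :: g :: rest) b = (1 + La g h) * lam (g :: rest) := by
      show (if g ≤ b then (1 + La g h) * lam (g :: rest) else Fb (g :: rest) b) = _
      rw [if_pos hb.1]
    rw [h1]
    ring

theorem tot_le {A D : ℝ} (hD : 1 ≤ D) (hA : D + 1 ≤ A)
    (hL : ∀ g h : ℕ, 1 ≤ g → g ≤ h →
      Real.log ((h : ℝ) / g) - D ≤ La g h ∧ La g h ≤ Real.log ((h : ℝ) / g) + D) :
    ∀ (tl : List ℕ) (j h : ℕ), Ch A D j (h :: tl) →
      tot (h :: tl) h ≤ (2 + 12 * tl.length) * TT A j * lam (h :: tl)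
  | [], j, h, hc => by
      have hh := hc.1
      have hT : A ≤ TT A j := TT_ge (by linarith) j
      have h1 : tot [h] h = ∑ b ∈ Finset.Ico 1 h, (1 : ℝ) / b := by
        unfold tot
        exact Finset.sum_congr rfl fun b _ => rfl
      have h2 := harm_le le_rfl hh
      have h3 := (hL 1 h le_rfl hh).1
      have h4 := hc.2
      have h5 : lam [h] = 1 := rfl
      rw [h1, h5]
      simp only [List.length_nil, Nat.cast_zero, mul_zero, add_zero, mul_one]
      rw [Nat.cast_one] at h2 h3
      linarith
  | g :: rest, j, h, hc => by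
      obtain ⟨hh, hT1, hT2, h2g, hc'⟩ := hc
      have hg := Ch_pos hc'
      have hgh : g ≤ h := by omega
      have hT : A ≤ TT A j := TT_ge (by linarith) j
      have ih := tot_le hD hA hL rest (j + 1) g hc'
      have hl0 := Ch_lam (by linarith : 1 ≤ A) rest (j + 1) g hc'
      rw [tot_split rest hg hgh]
      have h1 := harm_le hg hgh
      have h2 := (hL g h hg hgh).1
      have h3 : ∑ b ∈ Finset.Ico g h, (1 : ℝ) / b ≤ 1 + La g h + D := by linarith
      have hlam : lam (h :: g :: rest) = La g h * lam (g :: rest) := rfl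
      rw [hlam, TT_succ] at *
      have hlen : ((g :: rest).length : ℝ) = (rest.length : ℝ) + 1 := by
        rw [List.length_cons]
        push_cast
        ring
      rw [hlen]
      set T := TT A j with hTd
      set L := La g h with hLd
      set l := lam (g :: rest) with hld
      set n : ℝ := (rest.length : ℝ) with hn
      have hn0 : 0 ≤ n := Nat.cast_nonneg _
      have hT0 : 2 ≤ T := by linarith
      have hL0 : T ≤ L := hT1
      -- first term
      have h4 : (2 + 12 * n) * (T * T) * l ≤ (2 + 12 * n) * T * (L * l) := by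
        have : (2 + 12 * n) * T * (L * l) - (2 + 12 * n) * (T * T) * l =
          (2 + 12 * n) * T * l * (L - T) := by ring
        have h5 : 0 ≤ (2 + 12 * n) * T * l * (L - T) := by
          have : 0 ≤ L - T := by linarith
          positivity
        linarith
      -- second term
      have h6 : (1 + L) * l * ∑ b ∈ Finset.Ico g h, (1 : ℝ) / b ≤ 12 * T * (L * l) := by
        have h7 : (1 + L) * l * ∑ b ∈ Finset.Ico g h, (1 : ℝ) / b ≤ (1 + L) * l * (1 + L + D) := by
          refine mul_le_mul_of_nonneg_left h3 ?_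
          have : 0 ≤ 1 + L := by linarith
          positivity
        have h8 : 1 + L ≤ 2 * L := by linarith
        have h9 : 1 + L + D ≤ 3 * T := by linarith
        have h10 : (1 + L) * l * (1 + L + D) ≤ (2 * L) * l * (3 * T) := by
          have q1 : 0 ≤ 1 + L := by linarith
          have q2 : 0 ≤ 1 + L + D := by linarith
          have q3 : 0 ≤ l := by linarith
          have q4 : 0 ≤ L := by linarith
          exact mul_le_mul (mul_le_mul_of_nonneg_right h8 q3) h9 q2 (by positivity)
        have h11 : 0 ≤ T * (L * l) := by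
          have : 0 ≤ L := by linarith
          positivity
        nlinarith [h7, h10, h11]
      nlinarith [ih, h4, h6]

theorem Ch_len {A D : ℝ}
    (hL : ∀ g h : ℕ, 1 ≤ g → g ≤ h →
      Real.log ((h : ℝ) / g) - D ≤ La g h ∧ La g h ≤ Real.log ((h : ℝ) / g) + D) :
    ∀ (tl : List ℕ) (j h : ℕ), Ch A D j (h :: tl) → tl ≠ [] →
      TT A (j + (tl.length - 1)) ≤ Real.log h + D
  | [], _, _, _, hne => absurd rfl hne
  | g :: rest, j, h, hc, _ => by
      obtain ⟨hh, hT1, hT2, h2g, hc'⟩ := hc
      have hg := Ch_pos hc'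
      have hgh : g ≤ h := by omega
      have hg0 : (1 : ℝ) ≤ g := by exact_mod_cast hg
      have hh0 : (1 : ℝ) ≤ h := by exact_mod_cast hh
      have hlen : (g :: rest).length - 1 = rest.length := by
        rw [List.length_cons]
        omega
      rw [hlen]
      by_cases hr : rest = []
      · rw [hr]
        simp only [List.length_nil, add_zero]
        have h1 := (hL g h hg hgh).2
        have h2 : Real.log ((h : ℝ) / g) ≤ Real.log h := by
          refine Real.log_le_log (by positivity) ?_
          rw [div_le_iff₀ (by linarith)]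
          nlinarith
        linarith
      · have h1 := Ch_len hL rest (j + 1) g hc' hr
        have h3 : 1 ≤ rest.length := by
          rcases rest with _ | ⟨x, y⟩
          · exact absurd rfl hr
          · simp
        have h4 : j + 1 + (rest.length - 1) = j + rest.length := by omega
        rw [h4] at h1
        have h5 : Real.log g ≤ Real.log h := by
          refine Real.log_le_log (by linarith) ?_
          exact_mod_cast hgh
        linarith

end Pool.Agent.Helper15.RC
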