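import Pool.Agent.Helper15.RC.Sieve

/-!
# Counting integers in `(0, N]` with given covers, arbitrary residue classes
-/

set_option autoImplicit false

open Finset Real

namespace Pool.Agent.Helper15.RC

open Pool.Agent.Helper44

/-- `m` lies in the class chosen for `q`. -/
def cov (a : ℕ → ℕ) (q m : ℕ) : Prop := m ≡ a q [MOD q]

/-- The Chinese remainder theorem for a finite set of primes. -/
theorem crt (a : ℕ → ℕ) (I : Finset ℕ) (hI : ∀ q ∈ I, q.Prime) :
    ∃ v : ℕ, ∀ m, (∀ q ∈ I, cov a q m) ↔ m ≡ v [MOD ∏ q ∈ I, q] := by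
  induction I using Finset.induction_on with
  | empty =>
    refine ⟨0, fun m => ?_⟩
    simp [Nat.modEq_one]
  | insert q I hq ih =>
    obtain ⟨v, hv⟩ := ih fun q hq => hI q (Finset.mem_insert_of_mem hq)
    have hcop : Nat.Coprime q (∏ q ∈ I, q) := by
      refine Nat.Coprime.prod_right fun q' hq' => ?_
      rw [Nat.coprime_primes (hI q (Finset.mem_insert_self _ _))
        (hI q' (Finset.mem_insert_of_mem hq'))]
      rintro rfl
      exact hq hq'
    obtain ⟨u, hu1, hu2⟩ := Nat.chineseRemainder hcop (a q) v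
    refine ⟨u, fun m => ?_⟩
    rw [Finset.prod_insert hq, ← Nat.modEq_and_modEq_iff_modEq_mul hcop]
    constructor
    · intro h
      refine ⟨(h q (Finset.mem_insert_self _ _)).trans hu1.symm, ?_⟩
      exact ((hv m).1 fun q' hq' => h q' (Finset.mem_insert_of_mem hq')).trans hu2.symm
    · rintro ⟨h1, h2⟩ q' hq'
      rw [Finset.mem_insert] at hq'
      rcases hq' with rfl | hq'
      · exact h1.trans hu1
      · exact (hv m).2 (h2.trans hu2) q' hq'

theorem card_class (N M v : ℕ) (hM : 0 < M) :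
    |(((Finset.Ioc 0 N).filter (fun n => n ≡ v [MOD M])).card : ℝ) - (N : ℝ) / M| ≤ 1 := by
  have h := Nat.Ioc_filter_modEq_card 0 N hM v
  have hm' : (0 : ℚ) < M := by exact_mod_cast hM
  set a : ℤ := ⌊((N : ℚ) - v) / M⌋ with ha
  set b : ℤ := ⌊(((0 : ℕ) : ℚ) - v) / M⌋ with hb
  have hb2 : ((((0 : ℕ) : ℚ) - v) / M) < b + 1 := Int.lt_floor_add_one _
  have hb1 : (b : ℚ) ≤ (((0 : ℕ) : ℚ) - v) / M := Int.floor_le _
  have ha2 : (((N : ℚ) - v) / M) < a + 1 := Int.lt_floor_add_one _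
  have ha1 : (a : ℚ) ≤ ((N : ℚ) - v) / M := Int.floor_le _
  have hab : b ≤ a := by
    apply Int.floor_le_floor
    apply div_le_div_of_nonneg_right _ hm'.le
    have : (((0 : ℕ) : ℚ)) ≤ N := by exact_mod_cast Nat.zero_le N
    linarith
  have h2 : (((Finset.Ioc 0 N).filter (fun n => n ≡ v [MOD M])).card : ℤ) = a - b := by
    rw [h, max_eq_left (by omega)]
  have h3 : (((Finset.Ioc 0 N).filter (fun n => n ≡ v [MOD M])).card : ℚ) = (a : ℚ) - b := by
    exact_mod_cast h2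
  have e : ((N : ℚ) - v) / M - (((0 : ℕ) : ℚ) - v) / M = (N : ℚ) / M := by
    field_simp
    push_cast
    ring
  have h4 : |(((Finset.Ioc 0 N).filter (fun n => n ≡ v [MOD M])).card : ℚ) - (N : ℚ) / M| ≤ 1 := by
    rw [h3, abs_le]
    constructor <;> linarith
  have h5 : ((|(((Finset.Ioc 0 N).filter (fun n => n ≡ v [MOD M])).card : ℚ) - (N : ℚ) / M| : ℚ) :
      ℝ) ≤ ((1 : ℚ) : ℝ) := by exact_mod_cast h4
  push_cast at h5
  exact h5

/-- `∏ 1/q`. -/
noncomputable def PI (I : Finset ℕ) : ℝ := ∏ q ∈ I, ((1 : ℝ) / q)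

/-- `∏ (1 - 1/q)`. -/
noncomputable def VV (J : Finset ℕ) : ℝ := ∏ q ∈ J, (1 - (1 : ℝ) / q)

theorem card_cov (a : ℕ → ℕ) (N : ℕ) (I : Finset ℕ) (hI : ∀ q ∈ I, q.Prime) :
    |evCount (Finset.Ioc 0 N) (fun m => ∀ q ∈ I, cov a q m) - N * PI I| ≤ 1 := by
  classical
  obtain ⟨v, hv⟩ := crt a I hI
  have h0 : 0 < ∏ q ∈ I, q := Finset.prod_pos fun q hq => (hI q hq).pos
  have h1 := card_class N (∏ q ∈ I, q) v h0
  rw [evCount_eq]
  have h2 : (Finset.Ioc 0 N).filter (fun m => ∀ q ∈ I, cov a q m) =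
      (Finset.Ioc 0 N).filter (fun n => n ≡ v [MOD ∏ q ∈ I, q]) :=
    Finset.filter_congr fun m _ => hv m
  rw [h2]
  unfold PI
  rw [Finset.prod_div_distrib]
  simp only [Finset.prod_const_one]
  rw [mul_one_div]
  push_cast at h1
  exact h1

/-- The sieve for arbitrary residue classes. -/
theorem sieve_cov : ∃ K : ℕ, 1 ≤ K ∧ ∀ w : ℕ, 1 ≤ w → ∀ (a : ℕ → ℕ) (N : ℕ) (I J : Finset ℕ),
    (∀ q ∈ I, q.Prime) → (∀ q ∈ J, q.Prime ∧ q ≤ 2 ^ w) → Disjoint I J →
    evCount (Finset.Ioc 0 N) (fun m => (∀ q ∈ I, cov a q m) ∧ ∀ q ∈ J, ¬ cov a q m) ≤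
      2 * (N * PI I) * VV J + 2 ^ (w * K) ∧
    (1 / 2) * (N * PI I) * VV J - 2 ^ (w * K) ≤
      evCount (Finset.Ioc 0 N) (fun m => (∀ q ∈ I, cov a q m) ∧ ∀ q ∈ J, ¬ cov a q m) := by
  classical
  obtain ⟨K, hK, hS⟩ := sieve_one
  refine ⟨K, hK, fun w hw a N I J hI hJ hIJ => ?_⟩
  have hw2 : (2 : ℝ) ≤ (2 : ℝ) ^ w := by
    calc (2 : ℝ) = 2 ^ 1 := (pow_one _).symm
      _ ≤ 2 ^ w := pow_le_pow_right₀ (by norm_num) hw
  have hX : 0 ≤ (N : ℝ) * PI I := by
    refine mul_nonneg (Nat.cast_nonneg _) (Finset.prod_nonneg fun q _ => ?_)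
    positivity
  have h1 := hS ((2 : ℝ) ^ w) hw2 ((Finset.Ioc 0 N).filter fun m => ∀ q ∈ I, cov a q m)
    (cov a) J (fun q hq => ⟨(hJ q hq).1, by exact_mod_cast (hJ q hq).2⟩) (N * PI I) 1 hX
    zero_le_one ?_
  · have h2 : evCount ((Finset.Ioc 0 N).filter fun m => ∀ q ∈ I, cov a q m)
        (fun m => ∀ q ∈ J, ¬ cov a q m) =
        evCount (Finset.Ioc 0 N) (fun m => (∀ q ∈ I, cov a q m) ∧ ∀ q ∈ J, ¬ cov a q m) := by
      rw [evCount_eq, evCount_eq, Finset.filter_filter]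
    rw [h2, ← pow_mul, one_mul] at h1
    exact h1
  · intro I' hI'
    have h3 : evCount ((Finset.Ioc 0 N).filter fun m => ∀ q ∈ I, cov a q m)
        (fun m => ∀ q ∈ I', cov a q m) =
        evCount (Finset.Ioc 0 N) (fun m => ∀ q ∈ I ∪ I', cov a q m) := by
      rw [evCount_eq, evCount_eq, Finset.filter_filter]
      congr 2
      refine Finset.filter_congr fun m _ => ?_
      constructor
      · rintro ⟨h1, h2⟩ q hq
        rcases Finset.mem_union.1 hq with h | h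
        · exact h1 q h
        · exact h2 q h
      · intro h
        exact ⟨fun q hq => h q (Finset.mem_union_left _ hq),
          fun q hq => h q (Finset.mem_union_right _ hq)⟩
    rw [h3]
    have h4 := card_cov a N (I ∪ I') (by
      intro q hq
      rcases Finset.mem_union.1 hq with h | h
      · exact hI q h
      · exact (hJ q (hI' h)).1)
    have h5 : PI (I ∪ I') = PI I * ∏ q ∈ I', ((1 : ℝ) / q) := by
      unfold PI
      rw [Finset.prod_union (Finset.disjoint_of_subset_right hI' hIJ)]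
    rw [h5, ← mul_assoc] at h4
    exact h4

end Pool.Agent.Helper15.RC
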