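import Pool.Agent.Helper15.RC.Windows

/-!
# Mertens type facts on the scale of powers of two
-/

set_option autoImplicit false

open Finset Real

namespace Pool.Agent.Helper15.RC

open Pool.Agent.Helper44

theorem floor_two_pow (h : ℕ) : ⌊(2 : ℝ) ^ h⌋₊ = 2 ^ h := by
  have h1 : (2 : ℝ) ^ h = ((2 ^ h : ℕ) : ℝ) := by push_cast; rfl
  rw [h1, Nat.floor_natCast]

theorem Pr_eq (h : ℕ) : Pr h = primesUpTo ((2 : ℝ) ^ h) := by
  unfold Pr primesUpTo
  rw [floor_two_pow]

theorem VV_Pr_bounds : ∃ c C : ℝ, 0 < c ∧ 0 < C ∧ ∀ h : ℕ, 1 ≤ h →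
    c / h ≤ VV (Pr h) ∧ VV (Pr h) ≤ C / h := by
  obtain ⟨c, C, hc, hC, hM⟩ := mertens_prod
  have hl : 0 < Real.log 2 := Real.log_pos (by norm_num)
  refine ⟨c / Real.log 2, C / Real.log 2, by positivity, by positivity, fun h hh => ?_⟩
  have h2 : (2 : ℝ) ≤ (2 : ℝ) ^ h := by
    calc (2 : ℝ) = 2 ^ 1 := (pow_one _).symm
      _ ≤ 2 ^ h := pow_le_pow_right₀ (by norm_num) hh
  have h3 := hM _ h2
  rw [Real.log_pow] at h3
  unfold VV
  rw [Pr_eq]
  have h4 : c / Real.log 2 / h = c / (h * Real.log 2) := by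
    rw [div_div, mul_comm]
  have h5 : C / Real.log 2 / h = C / (h * Real.log 2) := by
    rw [div_div, mul_comm]
  rw [h4, h5]
  exact h3

/-- The sum of `1/(q(q-1))`. -/
theorem sum_gap_le (s : Finset ℕ) (hs : ∀ q ∈ s, 2 ≤ q) :
    ∑ q ∈ s, ((1 : ℝ) / ((q : ℝ) - 1) - 1 / q) ≤ 1 := by
  have h1 : ∀ n : ℕ, ∑ q ∈ Finset.Ico 2 (n + 2), ((1 : ℝ) / ((q : ℝ) - 1) - 1 / q) =
      1 - 1 / ((n : ℝ) + 1) := by
    intro n
    induction n with
    | zero => simp
    | succ n ih =>
      rw [Finset.sum_Ico_succ_top (by omega), ih]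
      push_cast
      have h2 : (n : ℝ) + 1 ≠ 0 := by positivity
      have h3 : (n : ℝ) + 1 + 1 ≠ 0 := by positivity
      have h4 : (n : ℝ) + 2 - 1 = (n : ℝ) + 1 := by ring
      have h5 : (n : ℝ) + 2 = (n : ℝ) + 1 + 1 := by ring
      rw [h4, h5]
      ring
  have hsub : s ⊆ Finset.Ico 2 (s.sup id + 2) := by
    intro q hq
    rw [Finset.mem_Ico]
    have h3 : id q ≤ s.sup id := Finset.le_sup hq
    have h4 := hs q hq
    simp only [id] at h3
    exact ⟨h4, by omega⟩
  refine (Finset.sum_le_sum_of_subset_of_nonneg hsub fun q hq _ => ?_).trans ?_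
  · rw [Finset.mem_Ico] at hq
    have h2 : (2 : ℝ) ≤ q := by exact_mod_cast hq.1
    have h3 : (1 : ℝ) / q ≤ 1 / ((q : ℝ) - 1) := one_div_le_one_div_of_le (by linarith) (by linarith)
    linarith
  · rw [h1]
    have : (0 : ℝ) ≤ 1 / (((s.sup id : ℕ) : ℝ) + 1) := by positivity
    linarith

theorem La_bounds : ∃ D : ℝ, 1 ≤ D ∧ ∀ g h : ℕ, 1 ≤ g → g ≤ h →
    Real.log ((h : ℝ) / g) - D ≤ La g h ∧ La g h ≤ Real.log ((h : ℝ) / g) + D := by
  obtain ⟨C, hC, hM⟩ := mertens_interval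
  have hl : 0 < Real.log 2 := Real.log_pos (by norm_num)
  refine ⟨C / Real.log 2 + 1, by
    have : 0 < C / Real.log 2 := by positivity
    linarith, fun g h hg hgh => ?_⟩
  have h2 : (2 : ℝ) ≤ (2 : ℝ) ^ g := by
    calc (2 : ℝ) = 2 ^ 1 := (pow_one _).symm
      _ ≤ 2 ^ g := pow_le_pow_right₀ (by norm_num) hg
  have h3 := hM ((2 : ℝ) ^ g) ((2 : ℝ) ^ h) h2 (pow_le_pow_right₀ (by norm_num) hgh)
  rw [floor_two_pow, floor_two_pow, Real.log_pow, Real.log_pow, mul_div_mul_right _ _ hl.ne'] at h3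
  have hg0 : (1 : ℝ) ≤ g := by exact_mod_cast hg
  have h4 : C / (g * Real.log 2) ≤ C / Real.log 2 := by
    apply div_le_div_of_nonneg_left hC.le hl
    nlinarith
  have h5 := abs_le.1 (h3.trans h4)
  have h6 : La g h = ∑ q ∈ (Finset.Ioc (2 ^ g) (2 ^ h)).filter Nat.Prime, (1 : ℝ) / q +
      ∑ q ∈ (Finset.Ioc (2 ^ g) (2 ^ h)).filter Nat.Prime, ((1 : ℝ) / ((q : ℝ) - 1) - 1 / q) := by
    rw [← Finset.sum_add_distrib]
    unfold La Wi
    refine Finset.sum_congr rfl fun q _ => ?_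
    ring
  have h7 : ∑ q ∈ (Finset.Ioc (2 ^ g) (2 ^ h)).filter Nat.Prime,
      ((1 : ℝ) / ((q : ℝ) - 1) - 1 / q) ≤ 1 :=
    sum_gap_le _ fun q hq => (Finset.mem_filter.1 hq).2.two_le
  have h8 : 0 ≤ ∑ q ∈ (Finset.Ioc (2 ^ g) (2 ^ h)).filter Nat.Prime,
      ((1 : ℝ) / ((q : ℝ) - 1) - 1 / q) := by
    refine Finset.sum_nonneg fun q hq => ?_
    have h9 : (2 : ℝ) ≤ q := by exact_mod_cast (Finset.mem_filter.1 hq).2.two_le
    have h10 : (1 : ℝ) / q ≤ 1 / ((q : ℝ) - 1) :=
      one_div_le_one_div_of_le (by linarith) (by linarith)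
    linarith
  constructor <;> linarith

theorem La_add {f g h : ℕ} (hfg : f ≤ g) (hgh : g ≤ h) : La f h = La f g + La g h := by
  have h1 : Wi f h = Wi f g ∪ Wi g h := by
    ext q
    rw [Finset.mem_union, mem_Wi, mem_Wi, mem_Wi]
    have h2 : 2 ^ f ≤ 2 ^ g := Nat.pow_le_pow_right (by norm_num) hfg
    have h3 : 2 ^ g ≤ 2 ^ h := Nat.pow_le_pow_right (by norm_num) hgh
    constructor
    · rintro ⟨⟨h4, h5⟩, h6⟩
      rcases Nat.lt_or_ge (2 ^ g) q with h7 | h7
      · exact Or.inr ⟨⟨h7, h5⟩, h6⟩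
      · exact Or.inl ⟨⟨h4, h7⟩, h6⟩
    · rintro (⟨⟨h4, h5⟩, h6⟩ | ⟨⟨h4, h5⟩, h6⟩)
      · exact ⟨⟨h4, h5.trans h3⟩, h6⟩
      · exact ⟨⟨h2.trans_lt h4, h5⟩, h6⟩
  unfold La
  rw [h1, Finset.sum_union]
  rw [Finset.disjoint_left]
  intro q h2 h3
  rw [mem_Wi] at h2 h3
  omega

theorem La_self (g : ℕ) : La g g = 0 := by
  unfold La Wi
  rw [Finset.Ioc_self]
  simp

theorem La_zero_one : La 0 1 = 1 := by
  have h1 : Wi 0 1 = {2} := by
    ext q
    rw [mem_Wi, Finset.mem_singleton]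
    constructor
    · rintro ⟨⟨h2, h3⟩, _⟩
      omega
    · rintro rfl
      exact ⟨⟨by norm_num, by norm_num⟩, Nat.prime_two⟩
  unfold La
  rw [h1, Finset.sum_singleton]
  norm_num

theorem La_mono {f g h : ℕ} (hfg : f ≤ g) (hgh : g ≤ h) : La f g ≤ La f h := by
  rw [La_add hfg hgh]
  have := La_nonneg g h
  linarith

/-- harmonic sums -/
theorem harm_le {g h : ℕ} (hg : 1 ≤ g) (hgh : g ≤ h) :
    ∑ b ∈ Finset.Ico g h, (1 : ℝ) / b ≤ 1 + Real.log ((h : ℝ) / g) := by
  have hg0 : (1 : ℝ) ≤ g := by exact_mod_cast hg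
  induction h, hgh using Nat.le_induction with
  | base =>
    rw [Finset.Ico_self, Finset.sum_empty, div_self (by linarith), Real.log_one]
    norm_num
  | succ n hn ih =>
    rcases Nat.eq_or_lt_of_le hn with h1 | h1
    · subst h1
      rw [Finset.sum_Ico_succ_top le_rfl, Finset.Ico_self, Finset.sum_empty, zero_add]
      have h2 : (1 : ℝ) / g ≤ 1 := by
        rw [div_le_one (by linarith)]
        exact hg0
      have h3 : 0 ≤ Real.log (((g + 1 : ℕ) : ℝ) / g) := by
        apply Real.log_nonneg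
        rw [le_div_iff₀ (by linarith)]
        push_cast
        linarith
      linarith
    · -- compare with the stronger bound
      have key : ∀ n : ℕ, g + 1 ≤ n → ∑ b ∈ Finset.Ico g n, (1 : ℝ) / b ≤
          1 / g + Real.log (((n : ℝ) - 1) / g) := by
        intro n hn
        induction n, hn using Nat.le_induction with
        | base =>
          rw [Finset.sum_Ico_succ_top le_rfl, Finset.Ico_self, Finset.sum_empty, zero_add]
          push_cast
          rw [add_sub_cancel_right, div_self (by linarith), Real.log_one]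
          linarith
        | succ n hn ih2 =>
          rw [Finset.sum_Ico_succ_top (by omega)]
          have hn1 : (g : ℝ) + 1 ≤ n := by exact_mod_cast hn
          have h2 : (0 : ℝ) < n - 1 := by linarith
          have h3 : (1 : ℝ) / n ≤ Real.log ((n : ℝ) / (n - 1)) := by
            have h4 := Real.one_sub_inv_le_log_of_pos (x := (n : ℝ) / (n - 1))
              (div_pos (by linarith) h2)
            rw [inv_div] at h4
            have h5 : 1 - ((n : ℝ) - 1) / n = 1 / n := by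
              have hn0 : (n : ℝ) ≠ 0 := by linarith
              rw [sub_div, div_self hn0]
              ring
            linarith
          have h6 : Real.log ((((n + 1 : ℕ) : ℝ) - 1) / g) =
              Real.log (((n : ℝ) - 1) / g) + Real.log ((n : ℝ) / (n - 1)) := by
            rw [← Real.log_mul (div_pos h2 (by linarith)).ne' (div_pos (by linarith) h2).ne']
            congr 1
            push_cast
            field_simp
            ring
          rw [h6]
          linarith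
      have h2 := key (n + 1) (by omega)
      refine h2.trans ?_
      have h3 : (1 : ℝ) / g ≤ 1 := by
        rw [div_le_one (by linarith)]
        exact hg0
      have h4 : Real.log ((((n + 1 : ℕ) : ℝ) - 1) / g) ≤ Real.log (((n + 1 : ℕ) : ℝ) / g) := by
        apply Real.log_le_log
        · have : (g : ℝ) + 1 ≤ n := by exact_mod_cast h1
          apply div_pos _ (by linarith)
          push_cast
          linarith
        · apply div_le_div_of_nonneg_right _ (by linarith)
          linarith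
      linarith

/-- The primes in a block. -/
def Bl (N k b : ℕ) : Finset ℕ :=
  (Finset.Ioc (N / 2 ^ (k * (b + 1))) (N / 2 ^ (k * b))).filter Nat.Prime

theorem Bl_sum (k : ℕ) (hk : 1 ≤ k) : ∃ C : ℝ, 0 < C ∧ ∀ N H b : ℕ, 1 ≤ H → 2 ^ (2 * k * H) ≤ N →
    b < H → ∑ p ∈ Bl N k b, (1 : ℝ) / p ≤ C / H := by
  obtain ⟨C, hC, hM⟩ := mertens_interval
  have hl : 0 < Real.log 2 := Real.log_pos (by norm_num)
  refine ⟨1 + C / Real.log 2, by positivity, fun N H b hH hN hb => ?_⟩
  have hH0 : (1 : ℝ) ≤ H := by exact_mod_cast hH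
  have hk0 : (1 : ℝ) ≤ k := by exact_mod_cast hk
  have hN0 : 0 < N := lt_of_lt_of_le (by positivity) hN
  have hNr : (0 : ℝ) < N := by exact_mod_cast hN0
  set x : ℝ := (N : ℝ) / 2 ^ (k * (b + 1)) with hx
  set y : ℝ := (N : ℝ) / 2 ^ (k * b) with hy
  -- x is large
  have hx1 : (2 : ℝ) ^ (k * H) ≤ x := by
    rw [hx, le_div_iff₀ (by positivity), ← pow_add]
    have h1 : (2 : ℝ) ^ (k * H + k * (b + 1)) ≤ 2 ^ (2 * k * H) := by
      apply pow_le_pow_right₀ (by norm_num)
      have : k * (b + 1) ≤ k * H := Nat.mul_le_mul_left _ hb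
      nlinarith
    refine h1.trans ?_
    exact_mod_cast hN
  have hx2 : (2 : ℝ) ≤ x := by
    refine le_trans ?_ hx1
    calc (2 : ℝ) = 2 ^ 1 := (pow_one _).symm
      _ ≤ 2 ^ (k * H) := pow_le_pow_right₀ (by norm_num) (by nlinarith)
  have hxy : x ≤ y := by
    rw [hx, hy]
    apply div_le_div_of_nonneg_left hNr.le (by positivity)
    apply pow_le_pow_right₀ (by norm_num)
    nlinarith
  have hlx : (k : ℝ) * H * Real.log 2 ≤ Real.log x := by
    have h1 := Real.log_le_log (by positivity) hx1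
    rw [Real.log_pow] at h1
    push_cast at h1
    exact h1
  have hlx0 : 0 < Real.log x := lt_of_lt_of_le (by positivity) hlx
  have hyx : Real.log y = Real.log x + k * Real.log 2 := by
    have h1 : y = x * 2 ^ k := by
      rw [hx, hy]
      have h2 : k * (b + 1) = k * b + k := by ring
      rw [h2, pow_add]
      field_simp
    rw [h1, Real.log_mul (by linarith) (by positivity), Real.log_pow]
  have h1 := hM x y hx2 hxy
  have hfx : ⌊x⌋₊ = N / 2 ^ (k * (b + 1)) := by
    rw [hx]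
    have : ((2 : ℝ) ^ (k * (b + 1))) = ((2 ^ (k * (b + 1)) : ℕ) : ℝ) := by push_cast; rfl
    rw [this]
    exact Nat.floor_div_eq_div _ _
  have hfy : ⌊y⌋₊ = N / 2 ^ (k * b) := by
    rw [hy]
    have : ((2 : ℝ) ^ (k * b)) = ((2 ^ (k * b) : ℕ) : ℝ) := by push_cast; rfl
    rw [this]
    exact Nat.floor_div_eq_div _ _
  rw [hfx, hfy] at h1
  have h2 := (abs_le.1 h1).2
  have h3 : Real.log (Real.log y / Real.log x) ≤ k * Real.log 2 / Real.log x := by
    have h4 := Real.log_le_sub_one_of_pos (x := Real.log y / Real.log x)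
      (div_pos (by rw [hyx]; positivity) hlx0)
    refine h4.trans (le_of_eq ?_)
    rw [hyx]
    field_simp
    ring
  have h5 : k * Real.log 2 / Real.log x ≤ 1 / H := by
    rw [div_le_div_iff₀ hlx0 (by linarith)]
    linarith
  have h6 : C / Real.log x ≤ C / Real.log 2 / H := by
    rw [div_div]
    apply div_le_div_of_nonneg_left hC.le (by positivity)
    refine le_trans ?_ hlx
    have h7 : Real.log 2 * H ≤ Real.log 2 * H * k := by
      have h8 : 0 ≤ Real.log 2 * H := by positivity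
      nlinarith
    calc Real.log 2 * H ≤ Real.log 2 * H * k := h7
      _ = k * H * Real.log 2 := by ring
  have h7 : (1 + C / Real.log 2) / H = 1 / H + C / Real.log 2 / H := by
    rw [add_div]
  rw [h7]
  unfold Bl
  linarith

theorem big_sum (k : ℕ) (hk : 1 ≤ k) : ∃ C : ℝ, 0 < C ∧ ∀ N H : ℕ, 1 ≤ H →
    2 ^ (2 * k * H) ≤ N → N < 2 ^ (2 * k * (H + 1)) →
    ∑ p ∈ (Finset.Ioc (2 ^ H) N).filter Nat.Prime, (1 : ℝ) / p ≤ C := by
  obtain ⟨C, hC, hM⟩ := mertens_interval
  have hl : 0 < Real.log 2 := Real.log_pos (by norm_num)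
  have hk0 : (1 : ℝ) ≤ k := by exact_mod_cast hk
  refine ⟨Real.log (4 * k) + C / Real.log 2 + 1, by
    have h1 : 0 ≤ Real.log (4 * k) := Real.log_nonneg (by linarith)
    positivity, fun N H hH hN hN' => ?_⟩
  have hH0 : (1 : ℝ) ≤ H := by exact_mod_cast hH
  have h2 : (2 : ℝ) ≤ (2 : ℝ) ^ H := by
    calc (2 : ℝ) = 2 ^ 1 := (pow_one _).symm
      _ ≤ 2 ^ H := pow_le_pow_right₀ (by norm_num) hH
  have h3 : (2 : ℝ) ^ H ≤ N := by
    have h4 : 2 ^ H ≤ 2 ^ (2 * k * H) := Nat.pow_le_pow_right (by norm_num) (by nlinarith)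
    exact_mod_cast h4.trans hN
  have h1 := hM ((2 : ℝ) ^ H) N h2 h3
  rw [floor_two_pow, Nat.floor_natCast] at h1
  have h4 := (abs_le.1 h1).2
  have hlN : Real.log N ≤ 2 * k * (H + 1) * Real.log 2 := by
    have h5 : (N : ℝ) ≤ (2 : ℝ) ^ (2 * k * (H + 1)) := by exact_mod_cast hN'.le
    have h6 := Real.log_le_log (by linarith) h5
    rw [Real.log_pow] at h6
    push_cast at h6
    exact h6
  rw [Real.log_pow] at h4
  have hH1 : 0 < (H : ℝ) * Real.log 2 := by positivity
  have hlN0 : 0 < Real.log N := Real.log_pos (by linarith)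
  have h5 : Real.log (Real.log N / (H * Real.log 2)) ≤ Real.log (4 * k) := by
    apply Real.log_le_log (div_pos hlN0 hH1)
    rw [div_le_iff₀ hH1]
    refine hlN.trans ?_
    have h6 : 2 * (k : ℝ) * (H + 1) ≤ 4 * k * H := by nlinarith
    calc 2 * (k : ℝ) * (H + 1) * Real.log 2 ≤ 4 * k * H * Real.log 2 :=
          mul_le_mul_of_nonneg_right h6 hl.le
      _ = 4 * k * (H * Real.log 2) := by ring
  have h6 : C / (H * Real.log 2) ≤ C / Real.log 2 := by
    apply div_le_div_of_nonneg_left hC.le hl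
    nlinarith
  linarith

end Pool.Agent.Helper15.RC
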