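import Pool.Agent.Helper15.RC.Blocks

/-!
# Some integer has few covers
-/

set_option autoImplicit false

open Finset Real

namespace Pool.Agent.Helper15.RC

open Pool.Agent.Helper44

theorem PI_empty : PI ∅ = 1 := by
  unfold PI
  rw [Finset.prod_empty]

/-- the size of the constructed set -/
theorem size_ge {K : ℕ} (hS : SC K) {A D c1 : ℝ} (hA : 1 ≤ A) (hc1 : 0 < c1)
    (hV : ∀ h : ℕ, 1 ≤ h → c1 / h ≤ VV (Pr h)) (a : ℕ → ℕ) (N H : ℕ) (tl : List ℕ)
    (hH : 1 ≤ H) (hH' : 4 / c1 ≤ H) (hN : 2 ^ (2 * (K + 4) * H) ≤ N) (hc : Ch A D 0 (H :: tl)) :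
    c1 / 4 * (N / H) * lam (H :: tl) ≤ evCount (Finset.Ioc 0 N) (cnd a (H :: tl)) := by
  have hH0 : (1 : ℝ) ≤ H := by exact_mod_cast hH
  have hlam := Ch_lam hA tl 0 H hc
  have hsz := Ch_sz tl 0 H hc
  have h1 := (win_count hS a N hH tl H (Ch_dec tl 0 H hc) le_rfl ∅ ∅ (by
    intro q hq
    exact absurd hq (Finset.notMem_empty q)) (by
    intro q hq
    exact absurd hq (Finset.notMem_empty q)) (Finset.disjoint_empty_right _)).2
  have h2 : evCount (Finset.Ioc 0 N) (fun m => ((∀ q ∈ (∅ : Finset ℕ), cov a q m) ∧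
      ∀ q ∈ (∅ : Finset ℕ), ¬ cov a q m) ∧ cnd a (H :: tl) m) =
      evCount (Finset.Ioc 0 N) (cnd a (H :: tl)) := by
    refine ev_congr _ fun m => ?_
    constructor
    · exact fun h => h.2
    · exact fun h => ⟨⟨fun q hq => absurd hq (Finset.notMem_empty q),
        fun q hq => absurd hq (Finset.notMem_empty q)⟩, h⟩
  rw [h2, PI_empty, VV_empty] at h1
  have hNr : (2 : ℝ) ^ (2 * (K + 4) * H) ≤ N := by exact_mod_cast hN
  have hN0 : (0 : ℝ) < N := lt_of_lt_of_le (by positivity) hNr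
  -- the error term
  have h3 : (2 : ℝ) ^ (sz (H :: tl) + H * K) ≤ c1 / 4 * (N / H) * lam (H :: tl) := by
    have h4 : (2 : ℝ) ^ (sz (H :: tl) + H * K) ≤ 2 ^ ((2 + K) * H) :=
      pow_le_pow_right₀ (by norm_num) (by nlinarith)
    have h5 : (2 : ℝ) ^ ((2 + K) * H) * (2 ^ H * 2 ^ H) ≤ 2 ^ (2 * (K + 4) * H) := by
      rw [← pow_add, ← pow_add]
      exact pow_le_pow_right₀ (by norm_num) (by nlinarith)
    have h6 : (H : ℝ) ≤ 2 ^ H := by exact_mod_cast Nat.lt_two_pow_self.le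
    have h7 : (0 : ℝ) < 2 ^ ((2 + K) * H) := by positivity
    have h8 : (4 / c1) * (H : ℝ) ≤ 2 ^ H * 2 ^ H :=
      mul_le_mul (hH'.trans h6) h6 (by linarith) (by positivity)
    have h9 : (2 : ℝ) ^ ((2 + K) * H) * ((4 / c1) * H) ≤ N :=
      (mul_le_mul_of_nonneg_left h8 h7.le).trans (h5.trans hNr)
    have h10 : (2 : ℝ) ^ ((2 + K) * H) ≤ c1 / 4 * (N / H) := by
      have h11 : c1 / 4 * ((N : ℝ) / H) = N / ((4 / c1) * H) := by
        field_simp
      rw [h11, le_div_iff₀ (by positivity)]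
      exact h9
    have h12 : 0 ≤ c1 / 4 * ((N : ℝ) / H) := by positivity
    calc (2 : ℝ) ^ (sz (H :: tl) + H * K) ≤ c1 / 4 * (N / H) * 1 := by
          rw [mul_one]
          exact h4.trans h10
      _ ≤ c1 / 4 * (N / H) * lam (H :: tl) := mul_le_mul_of_nonneg_left hlam h12
  have h4 : c1 / 2 * ((N : ℝ) / H) * lam (H :: tl) ≤
      1 / 2 * (N * 1) * 1 * VV (Pr H) * lam (H :: tl) := by
    have h5 : c1 / 2 * ((N : ℝ) / H) = 1 / 2 * N * (c1 / H) := by ring
    rw [h5]
    refine mul_le_mul_of_nonneg_right ?_ (by linarith)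
    calc 1 / 2 * (N : ℝ) * (c1 / H) ≤ 1 / 2 * N * VV (Pr H) :=
          mul_le_mul_of_nonneg_left (hV H hH) (by positivity)
      _ = 1 / 2 * (N * 1) * 1 * VV (Pr H) := by ring
  have h5 : c1 / 2 * ((N : ℝ) / H) * lam (H :: tl) =
      c1 / 4 * (N / H) * lam (H :: tl) + c1 / 4 * (N / H) * lam (H :: tl) := by ring
  linarith

theorem main_chain : ∃ (C A D : ℝ) (k H₀ : ℕ), 0 < C ∧ 2 ≤ A ∧ 1 ≤ D ∧ 1 ≤ k ∧ 1 ≤ H₀ ∧
    ∀ (N H : ℕ) (a : ℕ → ℕ), H₀ ≤ H → 2 ^ (2 * k * H) ≤ N → N < 2 ^ (2 * k * (H + 1)) →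
      ∃ tl : List ℕ, (tl ≠ [] → TT A (tl.length - 1) ≤ Real.log H + D) ∧
        ∃ m : ℕ, 1 ≤ m ∧ m ≤ N ∧
          (((Finset.range (N + 1)).filter (fun p => p.Prime ∧ m ≡ a p [MOD p])).card : ℝ) ≤
            C * ((tl.length : ℝ) + 1) := by
  classical
  obtain ⟨K, hK, hS⟩ := sieve_cov
  obtain ⟨D, hD, hL⟩ := La_bounds
  obtain ⟨c1, C1, hc1, hC1, hV⟩ := VV_Pr_bounds
  obtain ⟨C4, hC4, hsum⟩ := large_sum (K := K) hS (A := D + 1) (D := D) (by linarith)
  refine ⟨1 + C4 * (4 / c1) * (14 * (D + 1)), D + 1, D, K + 4, ⌈4 / c1⌉₊ + 1, by positivity,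
    by linarith, hD, by omega, by omega, fun N H a hH hN hN' => ?_⟩
  have hH1 : 1 ≤ H := by omega
  have hH2 : 4 / c1 ≤ H := by
    have h1 := Nat.le_ceil (4 / c1)
    have h2 : ((⌈4 / c1⌉₊ + 1 : ℕ) : ℝ) ≤ H := by exact_mod_cast hH
    push_cast at h2
    linarith
  have hH0 : (1 : ℝ) ≤ H := by exact_mod_cast hH1
  obtain ⟨tl, hc⟩ := Ch_exists hD le_rfl hL H hH1 0
  refine ⟨tl, fun hne => ?_, ?_⟩
  · have h1 := Ch_len hL tl 0 H hc hne
    rw [zero_add] at h1
    exact h1
  have hlam := Ch_lam (by linarith : (1 : ℝ) ≤ D + 1) tl 0 H hc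
  have hdec := Ch_dec tl 0 H hc
  have htot := tot_le hD le_rfl hL tl 0 H hc
  have hT0 : TT (D + 1) 0 = D + 1 := by
    unfold TT
    rw [pow_zero, pow_one]
  rw [hT0] at htot
  have hsize := size_ge hS (by linarith : (1 : ℝ) ≤ D + 1) hc1 (fun h hh => (hV h hh).1) a N H tl
    hH1 hH2 hN hc
  have hNr : (2 : ℝ) ^ (2 * (K + 4) * H) ≤ N := by exact_mod_cast hN
  have hN0 : (0 : ℝ) < N := lt_of_lt_of_le (by positivity) hNr
  have hX : 0 < (N : ℝ) / H := by positivity
  set S := (Finset.Ioc 0 N).filter (cnd a (H :: tl)) with hSd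
  have hScard : evCount (Finset.Ioc 0 N) (cnd a (H :: tl)) = (S.card : ℝ) := evCount_eq _ _
  rw [hScard] at hsize
  have hSpos : (0 : ℝ) < S.card := lt_of_lt_of_le (by positivity) hsize
  have hSne : S.Nonempty := by
    rw [← Finset.card_pos]
    exact_mod_cast hSpos
  set n : ℝ := (tl.length : ℝ) with hn
  have hn0 : 0 ≤ n := Nat.cast_nonneg _
  -- the number of covers as a sum
  set f : ℕ → ℝ := fun m => ∑ p ∈ (Finset.Ioc 0 N).filter Nat.Prime,
    if cov a p m then (1 : ℝ) else 0 with hf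
  have hpow : 2 ^ H ≤ N := by
    refine le_trans (Nat.pow_le_pow_right (by norm_num) ?_) hN
    nlinarith
  have hprimes : (Finset.Ioc 0 N).filter Nat.Prime =
      Pr H ∪ (Finset.Ioc (2 ^ H) N).filter Nat.Prime := by
    unfold Pr
    rw [← Finset.filter_union]
    congr 1
    ext x
    have hp0 : 0 < 2 ^ H := by positivity
    rw [Finset.mem_union, Finset.mem_Ioc, Finset.mem_Ioc, Finset.mem_Ioc]
    omega
  have hdisj : Disjoint (Pr H) ((Finset.Ioc (2 ^ H) N).filter Nat.Prime) := by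
    rw [Finset.disjoint_left]
    intro x hx hx'
    rw [mem_Pr] at hx
    rw [Finset.mem_filter, Finset.mem_Ioc] at hx'
    omega
  have hfS : ∑ m ∈ S, f m ≤ ∑ m ∈ S, (1 + C4 * (4 / c1) * (14 * (D + 1))) * (n + 1) := by
    have h1 : ∑ m ∈ S, f m = ∑ m ∈ S, (n + ∑ p ∈ (Finset.Ioc (2 ^ H) N).filter Nat.Prime,
        if cov a p m then (1 : ℝ) else 0) := by
      refine Finset.sum_congr rfl fun m hm => ?_
      rw [hSd, Finset.mem_filter] at hm
      rw [hf]
      simp only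
      rw [hprimes, Finset.sum_union hdisj]
      congr 1
      have h2 := cnd_card a tl H hdec m hm.2
      rw [hn, ← h2]
    have h2 : ∑ m ∈ S, ∑ p ∈ (Finset.Ioc (2 ^ H) N).filter Nat.Prime,
        (if cov a p m then (1 : ℝ) else 0) =
        ∑ p ∈ (Finset.Ioc (2 ^ H) N).filter Nat.Prime,
          evCount (Finset.Ioc 0 N) (fun m => cov a p m ∧ cnd a (H :: tl) m) := by
      rw [Finset.sum_comm]
      refine Finset.sum_congr rfl fun p _ => ?_
      rw [evCount_eq, ← Finset.sum_filter, hSd, Finset.filter_filter, Finset.sum_const,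
        nsmul_eq_mul, mul_one]
      congr 2
      refine Finset.filter_congr fun m _ => ?_
      exact and_comm
    rw [h1, Finset.sum_add_distrib, h2, Finset.sum_const, Finset.sum_const, nsmul_eq_mul,
      nsmul_eq_mul]
    have h3 := hsum N H a tl hH1 hN hN' hc
    -- lam + tot + 1
    have h4 : lam (H :: tl) + tot (H :: tl) H + 1 ≤
        (14 * (D + 1)) * (n + 1) * lam (H :: tl) := by
      have h5 : 0 ≤ n * (D + 1) * lam (H :: tl) := by positivity
      have h6 : 0 ≤ (D + 1) * lam (H :: tl) := by positivity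
      have h7 : 1 * lam (H :: tl) ≤ (D + 1) * lam (H :: tl) :=
        mul_le_mul_of_nonneg_right (by linarith) (by linarith)
      nlinarith [htot]
    have h5 : C4 * ((N : ℝ) / H) * (lam (H :: tl) + tot (H :: tl) H + 1) ≤
        C4 * (N / H) * ((14 * (D + 1)) * (n + 1) * lam (H :: tl)) :=
      mul_le_mul_of_nonneg_left h4 (by positivity)
    have h6 : C4 * ((N : ℝ) / H) * ((14 * (D + 1)) * (n + 1) * lam (H :: tl)) =
        C4 * (4 / c1) * (14 * (D + 1)) * (n + 1) * (c1 / 4 * (N / H) * lam (H :: tl)) := by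
      field_simp
    have h7 : C4 * (4 / c1) * (14 * (D + 1)) * (n + 1) * (c1 / 4 * (N / H) * lam (H :: tl)) ≤
        C4 * (4 / c1) * (14 * (D + 1)) * (n + 1) * S.card :=
      mul_le_mul_of_nonneg_left hsize (by positivity)
    have h8 : (S.card : ℝ) * ((1 + C4 * (4 / c1) * (14 * (D + 1))) * (n + 1)) =
        S.card * n + S.card + C4 * (4 / c1) * (14 * (D + 1)) * (n + 1) * S.card := by
      ring
    rw [h8]
    linarith
  obtain ⟨m, hm, hle⟩ := Finset.exists_le_of_sum_le hSne hfS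
  rw [hSd, Finset.mem_filter, Finset.mem_Ioc] at hm
  refine ⟨m, hm.1.1, hm.1.2, ?_⟩
  refine le_trans (le_of_eq ?_) hle
  rw [hf]
  simp only
  rw [← Finset.sum_filter, Finset.sum_const, nsmul_eq_mul, mul_one, Finset.filter_filter]
  congr 2
  ext p
  rw [Finset.mem_filter, Finset.mem_filter, Finset.mem_range, Finset.mem_Ioc]
  constructor
  · rintro ⟨h1, h2, h3⟩
    exact ⟨⟨h2.pos, by omega⟩, h2, h3⟩
  · rintro ⟨⟨h1, h1'⟩, h2, h3⟩
    exact ⟨by omega, h2, h3⟩

theorem upper : ∃ C : ℝ, ∃ N₀ : ℕ, ∀ N : ℕ, N₀ ≤ N → ∀ a : ℕ → ℕ, ∃ m : ℕ, 1 ≤ m ∧ m ≤ N ∧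
    (((Finset.range (N + 1)).filter (fun p => p.Prime ∧ m ≡ a p [MOD p])).card : ℝ) ≤
      C * Real.log (Real.log (Real.log (Real.log N))) := by
  obtain ⟨C, A, D, k, H₀, hC, hA, hD, hk, hH₀, hmain⟩ := main_chain
  -- the iterated logarithms are large
  have t1 : Filter.Tendsto (fun N : ℕ => Real.log (N : ℝ)) Filter.atTop Filter.atTop :=
    Real.tendsto_log_atTop.comp tendsto_natCast_atTop_atTop
  have t2 := Real.tendsto_log_atTop.comp t1
  have t3 := Real.tendsto_log_atTop.comp t2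
  have t4 := Real.tendsto_log_atTop.comp t3
  obtain ⟨N1, h1⟩ := Filter.eventually_atTop.1 (t2.eventually_ge_atTop (D + 2))
  obtain ⟨N2, h2⟩ := Filter.eventually_atTop.1 (t3.eventually_ge_atTop 4)
  obtain ⟨N3, h3⟩ := Filter.eventually_atTop.1 (t4.eventually_ge_atTop 1)
  refine ⟨6 * C, N1 + N2 + N3 + 2 ^ (2 * k * H₀), fun N hN a => ?_⟩
  have hpp : 0 < 2 ^ (2 * k * H₀) := by positivity
  have hN1 := h1 N (by omega)
  have hN2 := h2 N (by omega)
  have hN3 := h3 N (by omega)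
  simp only [Function.comp] at hN1 hN2 hN3
  have hNp : 2 ^ (2 * k * H₀) ≤ N := by omega
  have hNne : N ≠ 0 := by
    have : 0 < 2 ^ (2 * k * H₀) := by positivity
    omega
  set H := Nat.log 2 N / (2 * k) with hH
  have hHle : H₀ ≤ H := by
    rw [hH, Nat.le_div_iff_mul_le (by omega)]
    have h4 : 2 * k * H₀ ≤ Nat.log 2 N := Nat.le_log_of_pow_le (by norm_num) hNp
    nlinarith
  have hH1 : 1 ≤ H := hH₀.trans hHle
  have hlow : 2 ^ (2 * k * H) ≤ N := by
    have h4 := Nat.div_mul_le_self (Nat.log 2 N) (2 * k)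
    rw [← hH] at h4
    refine le_trans (Nat.pow_le_pow_right (by norm_num) ?_) (Nat.pow_log_le_self 2 hNne)
    nlinarith
  have hupp : N < 2 ^ (2 * k * (H + 1)) := by
    have h4 := Nat.lt_div_mul_add (a := Nat.log 2 N) (b := 2 * k) (by omega)
    rw [← hH] at h4
    refine lt_of_lt_of_le (Nat.lt_pow_succ_log_self (by norm_num) N)
      (Nat.pow_le_pow_right (by norm_num) ?_)
    have h5 : 2 * k * (H + 1) = H * (2 * k) + 2 * k := by ring
    rw [h5]
    omega
  obtain ⟨tl, htl, m, hm1, hm2, hm3⟩ := hmain N H a hHle hlow hupp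
  refine ⟨m, hm1, hm2, hm3.trans ?_⟩
  set L4 := Real.log (Real.log (Real.log (Real.log N))) with hL4
  have hlog2 : (1 : ℝ) / 2 ≤ Real.log 2 := by
    have := Real.log_two_gt_d9
    linarith
  have hlen : (tl.length : ℝ) ≤ 4 * L4 + 1 := by
    by_cases hne : tl = []
    · rw [hne, List.length_nil, Nat.cast_zero]
      linarith
    · have h4 := htl hne
      have hl1 : 1 ≤ tl.length := by
        rcases tl with _ | ⟨x, y⟩
        · exact absurd rfl hne
        · simp
      set n := tl.length - 1 with hn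
      have hnl : (tl.length : ℝ) = (n : ℝ) + 1 := by
        have : tl.length = n + 1 := by omega
        rw [this]
        push_cast
        ring
      -- log H ≤ log log N
      have hH0 : (1 : ℝ) ≤ H := by exact_mod_cast hH1
      have hN0 : (0 : ℝ) < N := by exact_mod_cast Nat.pos_of_ne_zero hNne
      have h5 : (H : ℝ) ≤ Real.log N := by
        have h6 : ((2 : ℝ) ^ (2 * k * H)) ≤ N := by exact_mod_cast hlow
        have h7 := Real.log_le_log (by positivity) h6
        rw [Real.log_pow] at h7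
        have h8 : (1 : ℝ) ≤ k := by exact_mod_cast hk
        push_cast at h7
        have h9 : (H : ℝ) ≤ 2 * k * H * Real.log 2 := by
          have h10 : (1 : ℝ) ≤ 2 * k * Real.log 2 := by nlinarith
          nlinarith
        linarith
      have h6 : Real.log H ≤ Real.log (Real.log N) := Real.log_le_log (by linarith) h5
      have h7 : TT A n ≤ Real.log (Real.log N) * Real.log (Real.log N) := by
        nlinarith
      have h8 : (2 : ℝ) ^ (2 ^ n) ≤ TT A n := by
        unfold TT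
        exact pow_le_pow_left₀ (by norm_num) hA _
      have hLL : 0 < Real.log (Real.log N) := by linarith
      have h9 := Real.log_le_log (by positivity) (h8.trans h7)
      rw [Real.log_pow, Real.log_mul hLL.ne' hLL.ne'] at h9
      push_cast at h9
      have h10 : (2 : ℝ) ^ n ≤ Real.log (Real.log (Real.log N)) * Real.log (Real.log (Real.log N)) := by
        have h11 : (0 : ℝ) < 2 ^ n := by positivity
        nlinarith
      have hLLL : 0 < Real.log (Real.log (Real.log N)) := by linarith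
      have h11 := Real.log_le_log (by positivity) h10
      rw [Real.log_pow, Real.log_mul hLLL.ne' hLLL.ne'] at h11
      have h12 : (0 : ℝ) ≤ n := Nat.cast_nonneg _
      rw [hnl]
      nlinarith
  nlinarith

end Pool.Agent.Helper15.RC
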