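import Pool.Agent.Helper15.RC.Chain

/-!
# Covers of one large prime inside the constructed set
-/

set_option autoImplicit false

open Finset Real

namespace Pool.Agent.Helper15.RC

open Pool.Agent.Helper44

/-- The conclusion of `sieve_cov` for a fixed `K`. -/
def SC (K : ℕ) : Prop := ∀ w : ℕ, 1 ≤ w → ∀ (a : ℕ → ℕ) (N : ℕ) (I J : Finset ℕ),
    (∀ q ∈ I, q.Prime) → (∀ q ∈ J, q.Prime ∧ q ≤ 2 ^ w) → Disjoint I J →
    evCount (Finset.Ioc 0 N) (fun m => (∀ q ∈ I, cov a q m) ∧ ∀ q ∈ J, ¬ cov a q m) ≤
      2 * (N * PI I) * VV J + 2 ^ (w * K) ∧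
    (1 / 2) * (N * PI I) * VV J - 2 ^ (w * K) ≤
      evCount (Finset.Ioc 0 N) (fun m => (∀ q ∈ I, cov a q m) ∧ ∀ q ∈ J, ¬ cov a q m)

theorem Pr_mono {g h : ℕ} (hgh : g ≤ h) : Pr g ⊆ Pr h := by
  rw [Pr_union hgh]
  exact Finset.subset_union_right

/-- the number of covers by small primes -/
theorem cnd_card (a : ℕ → ℕ) : ∀ (tl : List ℕ) (h : ℕ), Dec (h :: tl) → ∀ m : ℕ,
    cnd a (h :: tl) m → ∑ q ∈ Pr h, (open Classical in if cov a q m then (1 : ℝ) else 0) = tl.length
  | [], h, _, m, hm => by
      have h1 : ∀ q ∈ Pr h, ¬ cov a q m := hm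
      rw [List.length_nil, Nat.cast_zero]
      exact Finset.sum_eq_zero fun q hq => if_neg (h1 q hq)
  | g :: rest, h, hd, m, hm => by
      obtain ⟨hgh, hd'⟩ := hd
      obtain ⟨⟨q, hq, hq1, hq2⟩, hm'⟩ := hm
      have ih := cnd_card a rest g hd' m hm'
      rw [Pr_union hgh.le, Finset.sum_union (Wi_Pr_disj g h), ih, Finset.sum_eq_single q]
      · rw [if_pos hq1, List.length_cons]
        push_cast
        ring
      · intro q' h1 h2
        exact if_neg (hq2 q' (Finset.mem_erase.2 ⟨h2, h1⟩))
      · intro h1
        exact absurd hq h1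

theorem ev_or (Ω : Finset ℕ) (P Q : ℕ → Prop) :
    evCount Ω (fun m => P m ∨ Q m) ≤ evCount Ω P + evCount Ω Q := by
  classical
  rw [evCount_eq, evCount_eq, evCount_eq, Finset.filter_or]
  exact_mod_cast Finset.card_union_le _ _

theorem PI_single (p : ℕ) : PI {p} = 1 / (p : ℝ) := by
  unfold PI
  rw [Finset.prod_singleton]

theorem VV_empty : VV ∅ = 1 := by
  unfold VV
  rw [Finset.prod_empty]

theorem per_prime {K : ℕ} (hS : SC K) {A D : ℝ} (hA : 1 ≤ A) (a : ℕ → ℕ) (N p b : ℕ)
    (hp : p.Prime) (hb : 1 ≤ b) (hbp : 2 ^ b < p) :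
    ∀ (tl : List ℕ) (j h : ℕ), Ch A D j (h :: tl) → b ≤ h →
      evCount (Finset.Ioc 0 N) (fun m => cov a p m ∧ cnd a (h :: tl) m) ≤
        2 * (N / p) * VV (Pr b) * Fb (h :: tl) b + 2 * 2 ^ ((3 + K) * b)
  | [], j, h, hc, hbh => by
      have h1 := (win_count hS a N hb [] b trivial le_rfl {p} ∅ (by
        intro q hq
        rw [Finset.mem_singleton] at hq
        rw [hq]
        exact ⟨hp, hbp⟩) (by
        intro q hq
        exact absurd hq (Finset.notMem_empty q)) (Finset.disjoint_empty_right _)).1
      have h2 : evCount (Finset.Ioc 0 N) (fun m => cov a p m ∧ cnd a [h] m) ≤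
          evCount (Finset.Ioc 0 N) (fun m => ((∀ q ∈ ({p} : Finset ℕ), cov a q m) ∧
            ∀ q ∈ (∅ : Finset ℕ), ¬ cov a q m) ∧ cnd a [b] m) := by
        refine ev_mono _ fun m hm => ?_
        refine ⟨⟨?_, ?_⟩, ?_⟩
        · intro q hq
          rw [Finset.mem_singleton] at hq
          rw [hq]
          exact hm.1
        · intro q hq
          exact absurd hq (Finset.notMem_empty q)
        · intro q hq
          exact hm.2 q (Pr_mono hbh hq)
      have h3 : sz [b] = 0 := rfl
      have h4 : lam [b] = 1 := rfl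
      have h5 : Fb [h] b = 1 := rfl
      rw [h3, h4, PI_single, VV_empty] at h1
      rw [h5]
      have h6 : (2 : ℝ) ^ (0 + b * K) ≤ 2 * 2 ^ ((3 + K) * b) := by
        have h7 : (2 : ℝ) ^ (0 + b * K) ≤ 2 ^ ((3 + K) * b) :=
          pow_le_pow_right₀ (by norm_num) (by nlinarith)
        have h8 : (0 : ℝ) < 2 ^ ((3 + K) * b) := by positivity
        linarith
      have h9 : 2 * ((N : ℝ) * (1 / p)) * 1 * VV (Pr b) * 1 = 2 * (N / p) * VV (Pr b) * 1 := by
        ring
      linarith
  | g :: rest, j, h, hc, hbh => by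
      have hc' : Ch A D (j + 1) (g :: rest) := hc.2.2.2.2
      have hlam := Ch_lam hA rest (j + 1) g hc'
      have hdec := Ch_dec rest (j + 1) g hc'
      have hsz := Ch_sz rest (j + 1) g hc'
      by_cases hgb : g ≤ b
      · -- the window is cut at `b`
        have hpow : 2 ^ g ≤ 2 ^ b := Nat.pow_le_pow_right (by norm_num) hgb
        have hpow' : 2 ^ b ≤ 2 ^ h := Nat.pow_le_pow_right (by norm_num) hbh
        have hF : Fb (h :: g :: rest) b = (1 + La g h) * lam (g :: rest) := by
          show (if g ≤ b then (1 + La g h) * lam (g :: rest) else Fb (g :: rest) b) = _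
          rw [if_pos hgb]
        have hN0 : (0 : ℝ) ≤ (N : ℝ) / p := by positivity
        have hV0 : 0 ≤ VV (Pr b) := VV_nonneg fun q hq => (mem_Pr.1 hq).2
        -- no cover from the lower part of the window
        have hfirst : evCount (Finset.Ioc 0 N) (fun m => ((∀ q ∈ ({p} : Finset ℕ), cov a q m) ∧
            ∀ q ∈ Wi g b, ¬ cov a q m) ∧ cnd a (g :: rest) m) ≤
            2 * (N / p) * VV (Pr b) * lam (g :: rest) + 2 ^ ((3 + K) * b) := by
          have h1 := (win_count hS a N hb rest g hdec hgb {p} (Wi g b) (by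
            intro q hq
            rw [Finset.mem_singleton] at hq
            rw [hq]
            exact ⟨hp, hpow.trans_lt hbp⟩) (by
            intro q hq
            have h2 := mem_Wi.1 hq
            exact ⟨h2.2, h2.1.1, h2.1.2⟩) (by
            rw [Finset.disjoint_singleton_left]
            intro h2
            have h3 := (mem_Wi.1 h2).1.2
            omega)).1
          rw [PI_single] at h1
          have h4 : 2 * ((N : ℝ) * (1 / p)) * VV (Wi g b) * VV (Pr g) * lam (g :: rest) =
              2 * (N / p) * VV (Pr b) * lam (g :: rest) := by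
            rw [VV_Pr hgb]
            ring
          have h5 : (2 : ℝ) ^ (sz (g :: rest) + b * K) ≤ 2 ^ ((3 + K) * b) :=
            pow_le_pow_right₀ (by norm_num) (by nlinarith)
          rw [h4] at h1
          linarith
        rw [hF]
        rcases Nat.eq_or_lt_of_le hgb with h1 | h1
        · -- g = b
          have h2 : evCount (Finset.Ioc 0 N) (fun m => cov a p m ∧ cnd a (h :: g :: rest) m) ≤
              evCount (Finset.Ioc 0 N) (fun m => ((∀ q ∈ ({p} : Finset ℕ), cov a q m) ∧
                ∀ q ∈ Wi g b, ¬ cov a q m) ∧ cnd a (g :: rest) m) := by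
            refine ev_mono _ fun m hm => ?_
            refine ⟨⟨?_, ?_⟩, hm.2.2⟩
            · intro q hq
              rw [Finset.mem_singleton] at hq
              rw [hq]
              exact hm.1
            · intro q hq
              have h3 := (mem_Wi.1 hq).1
              rw [h1] at h3
              omega
          have h3 : 2 * ((N : ℝ) / p) * VV (Pr b) * lam (g :: rest) ≤
              2 * (N / p) * VV (Pr b) * ((1 + La g h) * lam (g :: rest)) := by
            refine mul_le_mul_of_nonneg_left ?_ (by positivity)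
            have := mul_nonneg (La_nonneg g h) (lam_nonneg (g :: rest))
            linarith
          have h4 : (0 : ℝ) < 2 ^ ((3 + K) * b) := by positivity
          linarith
        · -- g < b
          have hsecond : evCount (Finset.Ioc 0 N) (fun m =>
              ((∀ q ∈ ({p} : Finset ℕ), cov a q m) ∧
              ∀ q ∈ (∅ : Finset ℕ), ¬ cov a q m) ∧ cnd a (b :: g :: rest) m) ≤
              2 * (N / p) * VV (Pr b) * (La g h * lam (g :: rest)) + 2 ^ ((3 + K) * b) := by
            have h2 := (win_count hS a N hb (g :: rest) b ⟨h1, hdec⟩ le_rfl {p} ∅ (by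
              intro q hq
              rw [Finset.mem_singleton] at hq
              rw [hq]
              exact ⟨hp, hbp⟩) (by
              intro q hq
              exact absurd hq (Finset.notMem_empty q)) (Finset.disjoint_empty_right _)).1
            rw [PI_single, VV_empty] at h2
            have h3 : lam (b :: g :: rest) = La g b * lam (g :: rest) := rfl
            have h4 : sz (b :: g :: rest) = b + sz (g :: rest) := rfl
            rw [h3, h4] at h2
            have h5 : (2 : ℝ) ^ (b + sz (g :: rest) + b * K) ≤ 2 ^ ((3 + K) * b) :=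
              pow_le_pow_right₀ (by norm_num) (by nlinarith)
            have h6 : 2 * ((N : ℝ) * (1 / p)) * 1 * VV (Pr b) * (La g b * lam (g :: rest)) ≤
                2 * (N / p) * VV (Pr b) * (La g h * lam (g :: rest)) := by
              have h7 : 2 * ((N : ℝ) * (1 / p)) * 1 * VV (Pr b) * (La g b * lam (g :: rest)) =
                  2 * (N / p) * VV (Pr b) * (La g b * lam (g :: rest)) := by ring
              rw [h7]
              refine mul_le_mul_of_nonneg_left ?_ (by positivity)
              exact mul_le_mul_of_nonneg_right (La_mono hgb hbh) (lam_nonneg _)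
            linarith
          have h2 : evCount (Finset.Ioc 0 N) (fun m => cov a p m ∧ cnd a (h :: g :: rest) m) ≤
              evCount (Finset.Ioc 0 N) (fun m => (((∀ q ∈ ({p} : Finset ℕ), cov a q m) ∧
                ∀ q ∈ Wi g b, ¬ cov a q m) ∧ cnd a (g :: rest) m) ∨
                (((∀ q ∈ ({p} : Finset ℕ), cov a q m) ∧
              ∀ q ∈ (∅ : Finset ℕ), ¬ cov a q m) ∧ cnd a (b :: g :: rest) m)) := by
            refine ev_mono _ fun m hm => ?_
            obtain ⟨hm1, ⟨q, hq, hq1, hq2⟩, hm3⟩ := hm
            have hpm : ∀ q ∈ ({p} : Finset ℕ), cov a q m := by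
              intro q hq
              rw [Finset.mem_singleton] at hq
              rw [hq]
              exact hm1
            have hqW := mem_Wi.1 hq
            by_cases hqb : q ≤ 2 ^ b
            · right
              refine ⟨⟨hpm, fun q hq => absurd hq (Finset.notMem_empty q)⟩, ⟨q, ?_, hq1, ?_⟩, hm3⟩
              · exact mem_Wi.2 ⟨⟨hqW.1.1, hqb⟩, hqW.2⟩
              · intro q' hq'
                rw [Finset.mem_erase] at hq'
                have h3 := mem_Wi.1 hq'.2
                exact hq2 q' (Finset.mem_erase.2 ⟨hq'.1, mem_Wi.2 ⟨⟨h3.1.1, h3.1.2.trans hpow'⟩,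
                  h3.2⟩⟩)
            · left
              refine ⟨⟨hpm, ?_⟩, hm3⟩
              intro q' hq'
              have h3 := mem_Wi.1 hq'
              refine hq2 q' (Finset.mem_erase.2 ⟨?_, mem_Wi.2 ⟨⟨h3.1.1, h3.1.2.trans hpow'⟩,
                  h3.2⟩⟩)
              rintro rfl
              exact hqb h3.1.2
          have h3 := ev_or (Finset.Ioc 0 N) (fun m => ((∀ q ∈ ({p} : Finset ℕ), cov a q m) ∧
                ∀ q ∈ Wi g b, ¬ cov a q m) ∧ cnd a (g :: rest) m)
                (fun m => ((∀ q ∈ ({p} : Finset ℕ), cov a q m) ∧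
              ∀ q ∈ (∅ : Finset ℕ), ¬ cov a q m) ∧ cnd a (b :: g :: rest) m)
          have h4 : 2 * ((N : ℝ) / p) * VV (Pr b) * ((1 + La g h) * lam (g :: rest)) =
              2 * (N / p) * VV (Pr b) * lam (g :: rest) +
              2 * (N / p) * VV (Pr b) * (La g h * lam (g :: rest)) := by ring
          rw [h4]
          linarith
      · -- the window is dropped
        have hgb' : b ≤ g := by omega
        have hF : Fb (h :: g :: rest) b = Fb (g :: rest) b := by
          show (if g ≤ b then (1 + La g h) * lam (g :: rest) else Fb (g :: rest) b) = _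
          rw [if_neg hgb]
        rw [hF]
        refine le_trans ?_ (per_prime hS hA a N p b hp hb hbp rest (j + 1) g hc' hgb')
        exact ev_mono _ fun m hm => ⟨hm.1, hm.2.2⟩

end Pool.Agent.Helper15.RC
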