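import Pool.Agent.Helper44.SievePairs

/-!
# One-dimensional sieve for arbitrary events at primes
-/

set_option autoImplicit false

open Finset Real

namespace Pool.Agent.Helper15.RC

open Pool.Agent.Helper44

/-- Block `j` of the primes of `Q`. -/
noncomputable def bk (Q : Finset ℕ) (w : ℝ) (j : ℕ) : Finset ℕ :=
  Q.filter fun q => ⌊zs w (j + 1)⌋₊ < q ∧ q ≤ ⌊zs w j⌋₊

theorem bk_sub {Q : Finset ℕ} {w : ℝ} (hQ : ∀ q ∈ Q, q.Prime) (j : ℕ) :
    bk Q w j ⊆ (Finset.Ioc ⌊zs w (j + 1)⌋₊ ⌊zs w j⌋₊).filter Nat.Prime := by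
  intro q hq
  unfold bk at hq
  rw [Finset.mem_filter] at hq
  rw [Finset.mem_filter, Finset.mem_Ioc]
  exact ⟨hq.2, hQ q hq.1⟩

theorem bk_sum {Q : Finset ℕ} {w : ℝ} (hQ : ∀ q ∈ Q, q.Prime) (j : ℕ) :
    ∑ q ∈ bk Q w j, (1 : ℝ) / q ≤ ∑ i ∈ blk w j, dens i := by
  rw [sum_dens_blk]
  have h1 := Finset.sum_le_sum_of_subset_of_nonneg (f := fun q : ℕ => (1 : ℝ) / q)
    (bk_sub hQ (w := w) j) (fun q _ _ => by positivity)
  have h2 : 0 ≤ ∑ q ∈ (Finset.Ioc ⌊zs w (j + 1)⌋₊ ⌊zs w j⌋₊).filter Nat.Prime, (1 : ℝ) / q :=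
    Finset.sum_nonneg fun q _ => by positivity
  linarith

theorem bk_card {Q : Finset ℕ} {w : ℝ} (hQ : ∀ q ∈ Q, q.Prime) (j : ℕ) :
    (bk Q w j).card ≤ (blk w j).card := by
  have h1 := Finset.card_le_card (bk_sub hQ (w := w) j)
  unfold blk
  rw [Finset.card_product, Finset.card_univ, Fintype.card_bool]
  omega

theorem bk_disj {Q : Finset ℕ} {w : ℝ} (hw : 1 ≤ w) {i j : ℕ} (hij : i ≠ j) :
    Disjoint (bk Q w i) (bk Q w j) := by
  rw [Finset.disjoint_left]
  intro a hi hj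
  unfold bk at hi hj
  rw [Finset.mem_filter] at hi hj
  rcases lt_or_gt_of_ne hij with h | h
  · have : ⌊zs w j⌋₊ ≤ ⌊zs w (i + 1)⌋₊ := Nat.floor_le_floor (zs_anti hw h)
    omega
  · have : ⌊zs w i⌋₊ ≤ ⌊zs w (j + 1)⌋₊ := Nat.floor_le_floor (zs_anti hw h)
    omega

theorem bk_union {Q : Finset ℕ} {w : ℝ} (hw : 2 ≤ w) (hQ : ∀ q ∈ Q, q.Prime ∧ (q : ℝ) ≤ w) :
    (Finset.univ : Finset (Fin (nb w))).biUnion (fun j => bk Q w j) = Q := by
  ext q
  simp only [Finset.mem_biUnion, Finset.mem_univ, true_and]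
  constructor
  · rintro ⟨j, hj⟩
    unfold bk at hj
    exact (Finset.mem_filter.1 hj).1
  · intro hq
    have h1 : (q, true) ∈ (Finset.univ : Finset (Fin (nb w))).biUnion (fun j => blk w j) := by
      rw [biUnion_blk hw, Finset.mem_product, mem_primesUpTo (by linarith)]
      exact ⟨hQ q hq, Finset.mem_univ _⟩
    rw [Finset.mem_biUnion] at h1
    obtain ⟨j, _, hj⟩ := h1
    rw [mem_blk] at hj
    refine ⟨j, ?_⟩
    unfold bk
    rw [Finset.mem_filter]
    exact ⟨hq, hj.1⟩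

/-- The sieve: events of density `1 / q` for the primes `q ∈ Q`. -/
theorem sieve_one : ∃ K : ℕ, 1 ≤ K ∧ ∀ w : ℝ, 2 ≤ w → ∀ (Ω : Finset ℕ) (occ : ℕ → ℕ → Prop)
    (Q : Finset ℕ), (∀ q ∈ Q, q.Prime ∧ (q : ℝ) ≤ w) → ∀ X E : ℝ, 0 ≤ X → 0 ≤ E →
    (∀ I : Finset ℕ, I ⊆ Q →
      |evCount Ω (fun m => ∀ q ∈ I, occ q m) - X * ∏ q ∈ I, ((1 : ℝ) / q)| ≤ E) →
    evCount Ω (fun m => ∀ q ∈ Q, ¬ occ q m) ≤
      2 * X * ∏ q ∈ Q, (1 - (1 : ℝ) / q) + E * w ^ K ∧
    (1 / 2) * X * ∏ q ∈ Q, (1 - (1 : ℝ) / q) - E * w ^ K ≤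
      evCount Ω (fun m => ∀ q ∈ Q, ¬ occ q m) := by
  obtain ⟨S0, hS0, hS⟩ := sum_dens_blk_le
  -- choose b
  have hsum : Summable (fun n : ℕ => S0 ^ n / (n.factorial : ℝ)) :=
    Real.summable_pow_div_factorial S0
  obtain ⟨s0, hs0⟩ := summable_iff_vanishing_norm.mp hsum (Real.exp (-(2 * S0)) / 2) (by positivity)
  set b := s0.sup id + 1 with hb
  refine ⟨12 * b + 20, by omega, ?_⟩
  intro w hw Ω occ Q hQ X E hX hE hcnt
  have hQp : ∀ q ∈ Q, q.Prime := fun q hq => (hQ q hq).1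
  have hw1 : (1 : ℝ) ≤ w := by linarith
  have hw0 : (0 : ℝ) < w := by linarith
  have hdisj : ∀ i j : Fin (nb w), i ≠ j → Disjoint (bk Q w i) (bk Q w j) := by
    intro i j hij
    exact bk_disj hw1 (fun h => hij (Fin.ext h))
  have hxm : ∀ j : Fin (nb w), ∀ q ∈ bk Q w j, 0 ≤ (1 : ℝ) / q ∧ (1 : ℝ) / q ≤ 1 / 2 := by
    intro j q hq
    have h1 : q.Prime := hQp q (Finset.mem_filter.1 hq).1
    have h2 : (2 : ℝ) ≤ q := by exact_mod_cast h1.two_le
    exact ⟨by positivity, one_div_le_one_div_of_le (by norm_num) h2⟩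
  have hsumj : ∀ j : Fin (nb w), ∑ q ∈ bk Q w j, (1 : ℝ) / q ≤ S0 := fun j =>
    (bk_sum hQp j).trans (hS w hw j)
  have hcnt' : ∀ I : Finset ℕ,
      I ⊆ Finset.univ.biUnion (fun j : Fin (nb w) => bk Q w j) →
      |evCount Ω (fun ω => ∀ i ∈ I, occ i ω) - X * ∏ i ∈ I, (1 : ℝ) / i| ≤ E := by
    intro I hI
    rw [bk_union hw hQ] at hI
    exact hcnt I hI
  have hVlow : ∀ j : Fin (nb w), Real.exp (-(2 * S0)) ≤ ∏ i ∈ bk Q w j, (1 - (1 : ℝ) / i) := by
    intro j
    calc Real.exp (-(2 * S0)) ≤ Real.exp (-∑ i ∈ bk Q w j, 2 * ((1 : ℝ) / i)) := by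
          apply Real.exp_le_exp.mpr
          rw [← Finset.mul_sum]
          have := hsumj j
          linarith
      _ = ∏ i ∈ bk Q w j, Real.exp (-(2 * ((1 : ℝ) / i))) := by
          rw [← Finset.sum_neg_distrib, Real.exp_sum]
      _ ≤ _ := by
          apply Finset.prod_le_prod
          · intro i _; exact (Real.exp_pos _).le
          · intro i hi
            have := hxm j i hi
            exact one_sub_ge_exp this.1 this.2
  have hr : ∑ j : Fin (nb w), es (bk Q w j) (2 * (b + (j : ℕ)) + 1) (fun q : ℕ => (1 : ℝ) / q) /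
      ∏ i ∈ bk Q w j, (1 - (1 : ℝ) / i) ≤ 1 / 2 := by
    have hterm : ∀ j : Fin (nb w),
        es (bk Q w j) (2 * (b + (j : ℕ)) + 1) (fun q : ℕ => (1 : ℝ) / q) /
        ∏ i ∈ bk Q w j, (1 - (1 : ℝ) / i) ≤
        (S0 ^ (2 * (b + (j : ℕ)) + 1) / ((2 * (b + (j : ℕ)) + 1).factorial : ℝ)) *
          Real.exp (2 * S0) := by
      intro j
      have h1 : es (bk Q w j) (2 * (b + (j : ℕ)) + 1) (fun q : ℕ => (1 : ℝ) / q) ≤
          S0 ^ (2 * (b + (j : ℕ)) + 1) / ((2 * (b + (j : ℕ)) + 1).factorial : ℝ) := by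
        refine (es_le_pow_div_factorial _ _ (fun i hi => (hxm j i hi).1) _).trans ?_
        apply div_le_div_of_nonneg_right _ (by positivity)
        apply pow_le_pow_left₀ (Finset.sum_nonneg fun i hi => (hxm j i hi).1) (hsumj j)
      have h2 := hVlow j
      have h3 : 0 < Real.exp (-(2 * S0)) := Real.exp_pos _
      rw [div_le_iff₀ (h3.trans_le h2)]
      calc es (bk Q w j) (2 * (b + (j : ℕ)) + 1) (fun q : ℕ => (1 : ℝ) / q)
          ≤ S0 ^ (2 * (b + (j : ℕ)) + 1) / ((2 * (b + (j : ℕ)) + 1).factorial : ℝ) * 1 := by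
            rw [mul_one]; exact h1
        _ = S0 ^ (2 * (b + (j : ℕ)) + 1) / ((2 * (b + (j : ℕ)) + 1).factorial : ℝ) *
              (Real.exp (2 * S0) * Real.exp (-(2 * S0))) := by
            rw [← Real.exp_add]; simp
        _ ≤ S0 ^ (2 * (b + (j : ℕ)) + 1) / ((2 * (b + (j : ℕ)) + 1).factorial : ℝ) *
              (Real.exp (2 * S0) * ∏ i ∈ bk Q w j, (1 - (1 : ℝ) / i)) := by
            gcongr
        _ = _ := by ring
    calc ∑ j : Fin (nb w), es (bk Q w j) (2 * (b + (j : ℕ)) + 1) (fun q : ℕ => (1 : ℝ) / q) /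
          ∏ i ∈ bk Q w j, (1 - (1 : ℝ) / i)
        ≤ ∑ j : Fin (nb w), (S0 ^ (2 * (b + (j : ℕ)) + 1) /
            ((2 * (b + (j : ℕ)) + 1).factorial : ℝ)) * Real.exp (2 * S0) :=
          Finset.sum_le_sum fun j _ => hterm j
      _ = (∑ n ∈ (Finset.univ : Finset (Fin (nb w))).image
              (fun j : Fin (nb w) => 2 * (b + (j : ℕ)) + 1),
            S0 ^ n / (n.factorial : ℝ)) * Real.exp (2 * S0) := by
          rw [← Finset.sum_mul, Finset.sum_image]
          intro i _ j _ hij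
          apply Fin.ext
          simp only at hij
          omega
      _ ≤ (Real.exp (-(2 * S0)) / 2) * Real.exp (2 * S0) := by
          apply mul_le_mul_of_nonneg_right _ (Real.exp_pos _).le
          have h4 := hs0 ((Finset.univ : Finset (Fin (nb w))).image
            (fun j : Fin (nb w) => 2 * (b + (j : ℕ)) + 1)) ?_
          · rw [Real.norm_eq_abs] at h4
            exact (le_abs_self _).trans h4.le
          · rw [Finset.disjoint_left]
            intro n hn hn'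
            rw [Finset.mem_image] at hn
            obtain ⟨j, _, rfl⟩ := hn
            have : id (2 * (b + (j : ℕ)) + 1) ≤ s0.sup id := Finset.le_sup (f := id) hn'
            simp only [id] at this
            omega
      _ = 1 / 2 := by
          rw [div_mul_eq_mul_div, ← Real.exp_add]; simp
  have hmain := brun_hooley Ω occ (fun j : Fin (nb w) => bk Q w j) hdisj
    (fun q : ℕ => (1 : ℝ) / q)
    (fun j i hi => hxm j i hi) X E hX hE hcnt' (fun j => 2 * (b + (j : ℕ)))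
    (fun j => even_two_mul _) hr
  -- identify the event
  have hevent : (fun ω : ℕ => ∀ j : Fin (nb w), ∀ i ∈ bk Q w j, ¬ occ i ω) =
      (fun m => ∀ q ∈ Q, ¬ occ q m) := by
    funext ω
    apply propext
    constructor
    · intro h q hq
      have h1 : q ∈ (Finset.univ : Finset (Fin (nb w))).biUnion (fun j => bk Q w j) := by
        rw [bk_union hw hQ]
        exact hq
      rw [Finset.mem_biUnion] at h1
      obtain ⟨j, _, hj⟩ := h1
      exact h j q hj
    · intro h j i hi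
      exact h i (Finset.mem_filter.1 hi).1
  rw [hevent] at hmain
  -- the product
  have hprodV : ∏ j : Fin (nb w), ∏ i ∈ bk Q w j, (1 - (1 : ℝ) / i) =
      ∏ q ∈ Q, (1 - (1 : ℝ) / q) := by
    rw [← Finset.prod_biUnion, bk_union hw hQ]
    intro i _ j _ hij
    exact hdisj i j hij
  rw [hprodV] at hmain
  have hprod : ∏ j : Fin (nb w), (((bk Q w j).card : ℝ) + 1) ^ (2 * (b + (j : ℕ)) + 1) ≤
      w ^ (12 * b + 18) := by
    have h1 := prod_blk_card_le hw b
    have h2 : w ^ (12 * b + 18) = w ^ ((12 * b + 18 : ℝ)) := by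
      rw [← Real.rpow_natCast]
      congr 1
      push_cast
      ring
    rw [h2]
    refine le_trans ?_ h1
    apply Finset.prod_le_prod
    · intro j _
      positivity
    · intro j _
      apply pow_le_pow_left₀ (by positivity)
      have := bk_card hQp (w := w) j
      have h3 : ((bk Q w j).card : ℝ) ≤ (blk w j).card := by exact_mod_cast this
      linarith
  have hprod0 : 0 ≤ ∏ j : Fin (nb w), (((bk Q w j).card : ℝ) + 1) ^ (2 * (b + (j : ℕ)) + 1) :=
    Finset.prod_nonneg fun j _ => by positivity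
  have hwK : w ^ (12 * b + 20) = w ^ (12 * b + 18) * w ^ 2 := by
    rw [← pow_add]
  have hwK0 : 0 < w ^ (12 * b + 18) := pow_pos hw0 _
  have hnb : (nb w : ℝ) + 1 ≤ w ^ 2 := by
    unfold nb
    push_cast
    have := Nat.floor_le hw0.le
    nlinarith
  constructor
  · refine hmain.1.trans ?_
    have h2 : E * ∏ j : Fin (nb w), (((bk Q w j).card : ℝ) + 1) ^ (2 * (b + (j : ℕ)) + 1) ≤
        E * w ^ (12 * b + 20) := by
      apply mul_le_mul_of_nonneg_left _ hE
      refine hprod.trans ?_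
      rw [hwK]
      have : (1 : ℝ) ≤ w ^ 2 := one_le_pow₀ hw1
      nlinarith
    linarith
  · refine le_trans ?_ hmain.2
    have h2 : E * (((nb w : ℕ) + 1) *
        ∏ j : Fin (nb w), (((bk Q w j).card : ℝ) + 1) ^ (2 * (b + (j : ℕ)) + 1)) ≤
        E * w ^ (12 * b + 20) := by
      apply mul_le_mul_of_nonneg_left _ hE
      rw [hwK, mul_comm (w ^ (12 * b + 18))]
      exact mul_le_mul hnb hprod hprod0 (by positivity)
    linarith

end Pool.Agent.Helper15.RC
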