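import Pool.Agent.Helper15.RC.Count

/-!
# Integers with exactly one cover from each of several windows of primes
-/

set_option autoImplicit false

open Finset Real

namespace Pool.Agent.Helper15.RC

open Pool.Agent.Helper44

/-- The primes in `(2^g, 2^h]`. -/
def Wi (g h : ℕ) : Finset ℕ := (Finset.Ioc (2 ^ g) (2 ^ h)).filter Nat.Prime

/-- The primes up to `2^h`. -/
def Pr (h : ℕ) : Finset ℕ := (Finset.Ioc 0 (2 ^ h)).filter Nat.Prime

theorem mem_Wi {g h q : ℕ} : q ∈ Wi g h ↔ (2 ^ g < q ∧ q ≤ 2 ^ h) ∧ q.Prime := by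
  unfold Wi
  rw [Finset.mem_filter, Finset.mem_Ioc]

theorem mem_Pr {h q : ℕ} : q ∈ Pr h ↔ q ≤ 2 ^ h ∧ q.Prime := by
  unfold Pr
  rw [Finset.mem_filter, Finset.mem_Ioc]
  constructor
  · rintro ⟨⟨_, h1⟩, h2⟩
    exact ⟨h1, h2⟩
  · rintro ⟨h1, h2⟩
    exact ⟨⟨h2.pos, h1⟩, h2⟩

/-- The mass of a window. -/
noncomputable def La (g h : ℕ) : ℝ := ∑ q ∈ Wi g h, (1 : ℝ) / ((q : ℝ) - 1)

theorem La_nonneg (g h : ℕ) : 0 ≤ La g h := by
  refine Finset.sum_nonneg fun q hq => ?_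
  have h1 : (1 : ℝ) ≤ q := by exact_mod_cast (mem_Wi.1 hq).2.one_lt.le
  exact div_nonneg zero_le_one (by linarith)

/-- Exactly one cover from each window, no cover below the last one. -/
def cnd (a : ℕ → ℕ) : List ℕ → ℕ → Prop
  | [], _ => True
  | [h], m => ∀ q ∈ Pr h, ¬ cov a q m
  | h :: g :: rest, m => (∃ q ∈ Wi g h, cov a q m ∧ ∀ q' ∈ (Wi g h).erase q, ¬ cov a q' m) ∧
      cnd a (g :: rest) m

/-- The product of the masses. -/
noncomputable def lam : List ℕ → ℝ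
  | [] => 1
  | [_] => 1
  | h :: g :: rest => La g h * lam (g :: rest)

theorem lam_nonneg : ∀ hs : List ℕ, 0 ≤ lam hs
  | [] => zero_le_one
  | [_] => zero_le_one
  | h :: g :: rest => mul_nonneg (La_nonneg g h) (lam_nonneg (g :: rest))

/-- The size of the error terms. -/
def sz : List ℕ → ℕ
  | [] => 0
  | [_] => 0
  | h :: g :: rest => h + sz (g :: rest)

/-- Decreasing lists. -/
def Dec : List ℕ → Prop
  | [] => True
  | [_] => True
  | h :: g :: rest => g < h ∧ Dec (g :: rest)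

theorem ev_split (Ω W : Finset ℕ) (occ : ℕ → ℕ → Prop) (P R : ℕ → Prop) :
    evCount Ω (fun m => P m ∧ ((∃ q ∈ W, occ q m ∧ ∀ q' ∈ W.erase q, ¬ occ q' m) ∧ R m)) =
      ∑ q ∈ W, evCount Ω (fun m => P m ∧ (occ q m ∧ ∀ q' ∈ W.erase q, ¬ occ q' m) ∧ R m) := by
  classical
  rw [evCount_eq_sum]
  have h1 : ∀ q ∈ W, evCount Ω (fun m => P m ∧ (occ q m ∧ ∀ q' ∈ W.erase q, ¬ occ q' m) ∧ R m) =
      ∑ m ∈ Ω, if (P m ∧ (occ q m ∧ ∀ q' ∈ W.erase q, ¬ occ q' m) ∧ R m) then (1 : ℝ) else 0 :=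
    fun q _ => evCount_eq_sum _ _
  rw [Finset.sum_congr rfl h1, Finset.sum_comm]
  refine Finset.sum_congr rfl fun m _ => ?_
  by_cases hP : P m ∧ R m
  · by_cases hex : ∃ q ∈ W, occ q m ∧ ∀ q' ∈ W.erase q, ¬ occ q' m
    · rw [if_pos ⟨hP.1, hex, hP.2⟩]
      obtain ⟨q, hq, hq1, hq2⟩ := hex
      rw [Finset.sum_eq_single q]
      · rw [if_pos ⟨hP.1, ⟨hq1, hq2⟩, hP.2⟩]
      · intro q' hq' hne
        rw [if_neg]
        rintro ⟨_, ⟨h3, _⟩, _⟩
        exact hq2 q' (Finset.mem_erase.2 ⟨hne, hq'⟩) h3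
      · intro h
        exact absurd hq h
    · rw [if_neg (fun h => hex h.2.1)]
      symm
      refine Finset.sum_eq_zero fun q hq => ?_
      rw [if_neg]
      rintro ⟨_, h3, _⟩
      exact hex ⟨q, hq, h3⟩
  · rw [if_neg (fun h => hP ⟨h.1, h.2.2⟩)]
    symm
    refine Finset.sum_eq_zero fun q hq => ?_
    rw [if_neg]
    rintro ⟨h3, _, h4⟩
    exact hP ⟨h3, h4⟩

theorem ev_congr (Ω : Finset ℕ) {P R : ℕ → Prop} (h : ∀ m, P m ↔ R m) :
    evCount Ω P = evCount Ω R := by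
  have : P = R := funext fun m => propext (h m)
  rw [this]

theorem ev_mono (Ω : Finset ℕ) {P R : ℕ → Prop} (h : ∀ m, P m → R m) :
    evCount Ω P ≤ evCount Ω R := by
  classical
  rw [evCount_eq, evCount_eq]
  exact_mod_cast Finset.card_le_card (Finset.monotone_filter_right Ω fun m _ hm => h m hm)

theorem VV_nonneg {J : Finset ℕ} (hJ : ∀ q ∈ J, q.Prime) : 0 ≤ VV J := by
  refine Finset.prod_nonneg fun q hq => ?_
  have h2 : (2 : ℝ) ≤ q := by exact_mod_cast (hJ q hq).two_le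
  have h3 : (1 : ℝ) / q ≤ 1 := by
    rw [div_le_one (by linarith)]
    linarith
  linarith

theorem PI_nonneg (I : Finset ℕ) : 0 ≤ PI I := Finset.prod_nonneg fun q _ => by positivity

theorem VV_union {J J' : Finset ℕ} (h : Disjoint J J') : VV (J ∪ J') = VV J * VV J' := by
  unfold VV
  rw [Finset.prod_union h]

theorem Pr_union {g h : ℕ} (hgh : g ≤ h) : Pr h = Wi g h ∪ Pr g := by
  ext q
  rw [Finset.mem_union, mem_Pr, mem_Wi, mem_Pr]
  have h1 : 2 ^ g ≤ 2 ^ h := Nat.pow_le_pow_right (by norm_num) hgh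
  constructor
  · rintro ⟨h2, h3⟩
    rcases Nat.lt_or_ge (2 ^ g) q with h4 | h4
    · exact Or.inl ⟨⟨h4, h2⟩, h3⟩
    · exact Or.inr ⟨h4, h3⟩
  · rintro (⟨⟨_, h2⟩, h3⟩ | ⟨h2, h3⟩)
    · exact ⟨h2, h3⟩
    · exact ⟨h2.trans h1, h3⟩

theorem Wi_Pr_disj (g h : ℕ) : Disjoint (Wi g h) (Pr g) := by
  rw [Finset.disjoint_left]
  intro q h1 h2
  rw [mem_Wi] at h1
  rw [mem_Pr] at h2
  omega

theorem VV_Pr {g h : ℕ} (hgh : g ≤ h) : VV (Pr h) = VV (Wi g h) * VV (Pr g) := by
  rw [Pr_union hgh, VV_union (Wi_Pr_disj g h)]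

theorem VV_erase {W : Finset ℕ} {q : ℕ} (hq : q ∈ W) (hp : q.Prime) :
    (1 : ℝ) / q * VV (W.erase q) = VV W * (1 / ((q : ℝ) - 1)) := by
  unfold VV
  rw [← Finset.mul_prod_erase W _ hq]
  have h2 : (2 : ℝ) ≤ q := by exact_mod_cast hp.two_le
  have h3 : (q : ℝ) - 1 ≠ 0 := by linarith
  have h4 : (q : ℝ) ≠ 0 := by linarith
  field_simp

/-- The count with windows, from above and from below. -/
theorem win_count {K : ℕ} (hS : ∀ w : ℕ, 1 ≤ w → ∀ (a : ℕ → ℕ) (N : ℕ) (I J : Finset ℕ),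
    (∀ q ∈ I, q.Prime) → (∀ q ∈ J, q.Prime ∧ q ≤ 2 ^ w) → Disjoint I J →
    evCount (Finset.Ioc 0 N) (fun m => (∀ q ∈ I, cov a q m) ∧ ∀ q ∈ J, ¬ cov a q m) ≤
      2 * (N * PI I) * VV J + 2 ^ (w * K) ∧
    (1 / 2) * (N * PI I) * VV J - 2 ^ (w * K) ≤
      evCount (Finset.Ioc 0 N) (fun m => (∀ q ∈ I, cov a q m) ∧ ∀ q ∈ J, ¬ cov a q m))
    (a : ℕ → ℕ) (N : ℕ) {w : ℕ} (hw : 1 ≤ w) (tl : List ℕ) :
    ∀ h : ℕ, Dec (h :: tl) → h ≤ w → ∀ I J : Finset ℕ, (∀ q ∈ I, q.Prime ∧ 2 ^ h < q) →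
      (∀ q ∈ J, q.Prime ∧ 2 ^ h < q ∧ q ≤ 2 ^ w) → Disjoint I J →
      evCount (Finset.Ioc 0 N) (fun m => ((∀ q ∈ I, cov a q m) ∧ ∀ q ∈ J, ¬ cov a q m) ∧
        cnd a (h :: tl) m) ≤
        2 * (N * PI I) * VV J * VV (Pr h) * lam (h :: tl) + 2 ^ (sz (h :: tl) + w * K) ∧
      (1 / 2) * (N * PI I) * VV J * VV (Pr h) * lam (h :: tl) - 2 ^ (sz (h :: tl) + w * K) ≤
        evCount (Finset.Ioc 0 N) (fun m => ((∀ q ∈ I, cov a q m) ∧ ∀ q ∈ J, ¬ cov a q m) ∧
          cnd a (h :: tl) m) := by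
  classical
  induction tl with
  | nil =>
    intro h _ hhw I J hI hJ hIJ
    have hpow : 2 ^ h ≤ 2 ^ w := Nat.pow_le_pow_right (by norm_num) hhw
    have hd1 : Disjoint J (Pr h) := by
      rw [Finset.disjoint_left]
      intro q h1 h2
      have h3 := (hJ q h1).2.1
      rw [mem_Pr] at h2
      omega
    have hd2 : Disjoint I (J ∪ Pr h) := by
      rw [Finset.disjoint_union_right]
      refine ⟨hIJ, ?_⟩
      rw [Finset.disjoint_left]
      intro q h1 h2
      have h3 := (hI q h1).2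
      rw [mem_Pr] at h2
      omega
    have h1 := hS w hw a N I (J ∪ Pr h) (fun q hq => (hI q hq).1) (by
      intro q hq
      rcases Finset.mem_union.1 hq with h | h
      · exact ⟨(hJ q h).1, (hJ q h).2.2⟩
      · rw [mem_Pr] at h
        exact ⟨h.2, h.1.trans hpow⟩) hd2
    have h2 : evCount (Finset.Ioc 0 N)
        (fun m => (∀ q ∈ I, cov a q m) ∧ ∀ q ∈ J ∪ Pr h, ¬ cov a q m) =
        evCount (Finset.Ioc 0 N) (fun m => ((∀ q ∈ I, cov a q m) ∧ ∀ q ∈ J, ¬ cov a q m) ∧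
        cnd a [h] m) := by
      refine ev_congr _ fun m => ?_
      constructor
      · rintro ⟨h3, h4⟩
        exact ⟨⟨h3, fun q hq => h4 q (Finset.mem_union_left _ hq)⟩,
          fun q hq => h4 q (Finset.mem_union_right _ hq)⟩
      · rintro ⟨⟨h3, h4⟩, h5⟩
        refine ⟨h3, fun q hq => ?_⟩
        rcases Finset.mem_union.1 hq with h | h
        · exact h4 q h
        · exact h5 q h
    rw [h2, VV_union hd1] at h1
    have h3 : sz [h] = 0 := rfl
    have h4 : lam [h] = 1 := rfl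
    rw [h3, h4, zero_add, mul_one, mul_one]
    obtain ⟨h5, h6⟩ := h1
    constructor
    · linarith
    · linarith
  | cons g rest ih =>
    intro h hdec hhw I J hI hJ hIJ
    obtain ⟨hgh, hdec'⟩ := hdec
    have hpow : 2 ^ h ≤ 2 ^ w := Nat.pow_le_pow_right (by norm_num) hhw
    have hpow' : 2 ^ g ≤ 2 ^ h := Nat.pow_le_pow_right (by norm_num) hgh.le
    -- the terms
    have hterm : ∀ q ∈ Wi g h,
        evCount (Finset.Ioc 0 N) (fun m => ((∀ q ∈ I, cov a q m) ∧ ∀ q ∈ J, ¬ cov a q m) ∧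
          (cov a q m ∧ ∀ q' ∈ (Wi g h).erase q, ¬ cov a q' m) ∧ cnd a (g :: rest) m) ≤
          2 * (N * PI I) * VV J * VV (Pr h) * lam (g :: rest) * (1 / ((q : ℝ) - 1)) +
            2 ^ (sz (g :: rest) + w * K) ∧
        (1 / 2) * (N * PI I) * VV J * VV (Pr h) * lam (g :: rest) * (1 / ((q : ℝ) - 1)) -
            2 ^ (sz (g :: rest) + w * K) ≤
          evCount (Finset.Ioc 0 N) (fun m => ((∀ q ∈ I, cov a q m) ∧ ∀ q ∈ J, ¬ cov a q m) ∧
          (cov a q m ∧ ∀ q' ∈ (Wi g h).erase q, ¬ cov a q' m) ∧ cnd a (g :: rest) m) := by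
      intro q hq
      have hqW := mem_Wi.1 hq
      have hqI : q ∉ I := by
        intro h1
        have := (hI q h1).2
        omega
      have hdJ : Disjoint J ((Wi g h).erase q) := by
        rw [Finset.disjoint_left]
        intro q' h1 h2
        have h3 := (hJ q' h1).2.1
        have h4 := mem_Wi.1 (Finset.mem_of_mem_erase h2)
        omega
      have h1 := ih g hdec' (hgh.le.trans hhw) (insert q I) (J ∪ (Wi g h).erase q) (by
        intro q' hq'
        rw [Finset.mem_insert] at hq'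
        rcases hq' with rfl | hq'
        · exact ⟨hqW.2, hqW.1.1⟩
        · exact ⟨(hI q' hq').1, hpow'.trans_lt (hI q' hq').2⟩) (by
        intro q' hq'
        rcases Finset.mem_union.1 hq' with h2 | h2
        · exact ⟨(hJ q' h2).1, hpow'.trans_lt (hJ q' h2).2.1, (hJ q' h2).2.2⟩
        · have h3 := mem_Wi.1 (Finset.mem_of_mem_erase h2)
          exact ⟨h3.2, h3.1.1, h3.1.2.trans hpow⟩) (by
        rw [Finset.disjoint_union_right, Finset.disjoint_insert_left, Finset.disjoint_insert_left]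
        refine ⟨⟨fun h2 => ?_, hIJ⟩, Finset.notMem_erase q _, ?_⟩
        · have h3 := (hJ q h2).2.1
          omega
        · rw [Finset.disjoint_left]
          intro q' h3 h4
          have h5 := (hI q' h3).2
          have h6 := mem_Wi.1 (Finset.mem_of_mem_erase h4)
          omega)
      have h2 : evCount (Finset.Ioc 0 N)
          (fun m => ((∀ q' ∈ insert q I, cov a q' m) ∧ ∀ q' ∈ J ∪ (Wi g h).erase q, ¬ cov a q' m) ∧
            cnd a (g :: rest) m) =
          evCount (Finset.Ioc 0 N) (fun m => ((∀ q ∈ I, cov a q m) ∧ ∀ q ∈ J, ¬ cov a q m) ∧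
          (cov a q m ∧ ∀ q' ∈ (Wi g h).erase q, ¬ cov a q' m) ∧ cnd a (g :: rest) m) := by
        refine ev_congr _ fun m => ?_
        constructor
        · rintro ⟨⟨h3, h4⟩, h5⟩
          exact ⟨⟨fun q' hq' => h3 q' (Finset.mem_insert_of_mem hq'),
            fun q' hq' => h4 q' (Finset.mem_union_left _ hq')⟩,
            ⟨h3 q (Finset.mem_insert_self _ _), fun q' hq' => h4 q' (Finset.mem_union_right _ hq')⟩,
            h5⟩
        · rintro ⟨⟨h3, h4⟩, ⟨h5, h6⟩, h7⟩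
          refine ⟨⟨fun q' hq' => ?_, fun q' hq' => ?_⟩, h7⟩
          · rw [Finset.mem_insert] at hq'
            rcases hq' with rfl | hq'
            · exact h5
            · exact h3 q' hq'
          · rcases Finset.mem_union.1 hq' with h | h
            · exact h4 q' h
            · exact h6 q' h
      have h3 : PI (insert q I) = (1 : ℝ) / q * PI I := by
        unfold PI
        rw [Finset.prod_insert hqI]
      have h4 : ∀ c : ℝ, c * (N * PI (insert q I)) * VV (J ∪ (Wi g h).erase q) * VV (Pr g) *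
          lam (g :: rest) =
          c * (N * PI I) * VV J * VV (Pr h) * lam (g :: rest) * (1 / ((q : ℝ) - 1)) := by
        intro c
        rw [h3, VV_union hdJ, VV_Pr hgh.le]
        have h5 := VV_erase hq hqW.2
        calc c * (N * ((1 : ℝ) / q * PI I)) * (VV J * VV ((Wi g h).erase q)) * VV (Pr g) *
              lam (g :: rest) = c * (N * PI I) * VV J * VV (Pr g) * lam (g :: rest) *
                ((1 : ℝ) / q * VV ((Wi g h).erase q)) := by ring
          _ = _ := by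
            rw [h5]
            ring
      rw [h2, h4, h4] at h1
      exact h1
    have hsplit := ev_split (Finset.Ioc 0 N) (Wi g h) (cov a)
      (fun m => (∀ q ∈ I, cov a q m) ∧ ∀ q ∈ J, ¬ cov a q m) (cnd a (g :: rest))
    have hev : evCount (Finset.Ioc 0 N) (fun m => ((∀ q ∈ I, cov a q m) ∧
        ∀ q ∈ J, ¬ cov a q m) ∧ cnd a (h :: g :: rest) m) =
        ∑ q ∈ Wi g h, evCount (Finset.Ioc 0 N)
          (fun m => ((∀ q ∈ I, cov a q m) ∧ ∀ q ∈ J, ¬ cov a q m) ∧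
          (cov a q m ∧ ∀ q' ∈ (Wi g h).erase q, ¬ cov a q' m) ∧ cnd a (g :: rest) m) := hsplit
    rw [hev]
    have hcard : ((Wi g h).card : ℝ) ≤ 2 ^ h := by
      have h1 : (Wi g h).card ≤ 2 ^ h := by
        unfold Wi
        refine (Finset.card_filter_le _ _).trans ?_
        rw [Nat.card_Ioc]
        exact Nat.sub_le _ _
      exact_mod_cast h1
    have herr : ((Wi g h).card : ℝ) * 2 ^ (sz (g :: rest) + w * K) ≤
        2 ^ (sz (h :: g :: rest) + w * K) := by
      have h1 : sz (h :: g :: rest) + w * K = h + (sz (g :: rest) + w * K) := by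
        show h + sz (g :: rest) + w * K = _
        omega
      rw [h1, pow_add (2 : ℝ) h]
      exact mul_le_mul_of_nonneg_right hcard (by positivity)
    have hlam : lam (h :: g :: rest) = La g h * lam (g :: rest) := rfl
    have hmain : ∀ c : ℝ, ∑ q ∈ Wi g h, c * (N * PI I) * VV J * VV (Pr h) * lam (g :: rest) *
        (1 / ((q : ℝ) - 1)) = c * (N * PI I) * VV J * VV (Pr h) * lam (h :: g :: rest) := by
      intro c
      rw [← Finset.mul_sum, hlam]
      unfold La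
      ring
    constructor
    · refine (Finset.sum_le_sum fun q hq => (hterm q hq).1).trans ?_
      rw [Finset.sum_add_distrib, hmain, Finset.sum_const, nsmul_eq_mul]
      linarith
    · refine le_trans ?_ (Finset.sum_le_sum fun q hq => (hterm q hq).2)
      rw [Finset.sum_sub_distrib, hmain, Finset.sum_const, nsmul_eq_mul]
      linarith

end Pool.Agent.Helper15.RC
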